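import Pool.Agent.W960.Alg
import Pool.Agent.W85.QIter

set_option autoImplicit false

/-!
# The solver `ks` is computable in polynomial time
-/

namespace Pool.Agent.NPC.W29Ks

open Pool.Agent.NPC Pool.Agent.H670R2 Pool.Agent.W960 Pool.Agent.W85.QIter
open Pool.Agent.NPC.H670R2 (poly_gdet poly_dotL sz_vec_le sz_int_of_lt)

variable {α β : Type} [TEnc α] [TEnc β]

/-! ## Basic closure properties -/

theorem poly_rep {k : α → ℕ} {x : α → β} (hk : UPoly k) (hx : Poly x) :
    Poly (fun a => List.replicate (k a) (x a)) :=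
  (Poly.map (l := fun a => List.replicate (k a) ()) (F := fun a _ => x a) hk
    (hx.comp (Poly.fst Poly.id))).congr fun a => by simp

theorem poly_find {l : α → List β} {p : α → β → Bool} (hl : Poly l)
    (hp : Poly (fun x : α × β => p x.1 x.2)) : Poly (fun a => (l a).find? (p a)) :=
  (Poly.head? (Poly.filter hl hp)).congr fun a => by rw [List.head?_filter]

theorem poly_addL {u v : α → List ℤ} (hu : Poly u) (hv : Poly v) :
    Poly (fun a => addL (u a) (v a)) :=
  Poly.zipWith (F := fun _ x y => x + y) hu hv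
    (Poly.iadd (Poly.fst (Poly.snd Poly.id)) (Poly.snd (Poly.snd Poly.id)))

theorem poly_mulL {u v : α → List ℤ} (hu : Poly u) (hv : Poly v) :
    Poly (fun a => mulL (u a) (v a)) :=
  Poly.zipWith (F := fun _ x y => x * y) hu hv
    (Poly.imul (Poly.fst (Poly.snd Poly.id)) (Poly.snd (Poly.snd Poly.id)))

theorem poly_smulL {c : α → ℤ} {u : α → List ℤ} (hc : Poly c) (hu : Poly u) :
    Poly (fun a => smulL (c a) (u a)) :=
  Poly.map (F := fun a x => c a * x) hu
    (Poly.imul (hc.comp (Poly.fst Poly.id)) (Poly.snd Poly.id))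

theorem poly_eL {k j : α → ℕ} (hk : UPoly k) (hj : Poly j) : Poly (fun a => eL (k a) (j a)) := by
  unfold eL
  refine Poly.map (F := fun a i => if i = j a then (1 : ℤ) else 0) (UPoly.range hk) ?_
  exact Poly.ite (p := fun q : α × ℕ => q.2 = j q.1)
    (Poly.decide_eq (Poly.snd Poly.id) (hj.comp (Poly.fst Poly.id))) (Poly.const _)
    (Poly.const _)

theorem poly_getD0 {l : α → List ℤ} {j : α → ℕ} (hl : Poly l) (hj : Poly j) :
    Poly (fun a => (l a).getD (j a) 0) :=
  Poly.getD (d := fun _ => (0 : ℤ)) hl hj (Poly.const _)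

/-! ## Selection of independent rows -/

theorem poly_snoc {s : α → List β} {r : α → β} (hs : Poly s) (hr : Poly r) :
    Poly (fun a => s a ++ [r a]) :=
  Poly.append hs (Poly.cons hr (Poly.const []))

theorem poly_selStep {s : α → List (List ℤ)} {r : α → List ℤ} (hs : Poly s) (hr : Poly r) :
    Poly (fun a => selStep (s a) (r a)) := by
  unfold selStep
  exact Poly.ite (p := fun a => gdet (s a ++ [r a]) = 0)
    (Poly.decide_eq (poly_gdet (poly_snoc hs hr)) (Poly.const 0)) hs (poly_snoc hs hr)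

theorem sz_selStep (s : List (List ℤ)) (r : List ℤ) : sz (selStep s r) ≤ sz s + sz r + 1 := by
  unfold selStep
  split_ifs
  · omega
  · have := sz_append s [r]
    rw [sz_list_cons, sz_list_nil] at this
    omega

theorem sz_foldl_sel (R : List (List ℤ)) : ∀ s : List (List ℤ),
    sz (R.foldl selStep s) + 1 ≤ sz s + sz R := by
  induction R with
  | nil => intro s; simp
  | cons r R ih =>
    intro s
    rw [List.foldl_cons, sz_list_cons]
    have h1 := ih (selStep s r)
    have h2 := sz_selStep s r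
    omega

theorem poly_sel {R : α → List (List ℤ)} (hR : Poly R) : Poly (fun a => sel (R a)) := by
  unfold sel
  obtain ⟨r, hr⟩ := hR.sz_le
  refine Poly.foldl (s := fun _ => ([] : List (List ℤ))) (F := fun _ s x => selStep s x) hR
    (Poly.const _) (poly_selStep (Poly.fst (Poly.snd Poly.id)) (Poly.snd (Poly.snd Poly.id)))
    r ?_
  intro a k _
  have h1 := sz_foldl_sel ((R a).take k) []
  have h2 := Poly.sz_take_le (R a) k
  have h3 := hr a
  rw [sz_list_nil] at h1
  change sz (((R a).take k).foldl selStep []) ≤ _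
  omega

/-! ## Projections -/

theorem poly_projL {S : α → List (List ℤ)} {k : α → ℕ} {y : α → List ℤ} (hS : Poly S)
    (hk : UPoly k) (hy : Poly y) : Poly (fun a => projL (S a) (k a) (y a)) := by
  unfold projL
  refine Poly.map (F := fun a j =>
    (gdet (S a ++ [addL (y a) (eL (k a) j)]) : ℤ) - (gdet (S a ++ [y a]) : ℤ) -
      (gdet (S a ++ [eL (k a) j]) : ℤ)) (UPoly.range hk) ?_
  have hS' : Poly (fun p : α × ℕ => S p.1) := hS.comp (Poly.fst Poly.id)
  have hy' : Poly (fun p : α × ℕ => y p.1) := hy.comp (Poly.fst Poly.id)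
  have hk' : UPoly (fun p : α × ℕ => k p.1) := hk.comp (Poly.fst Poly.id)
  have he : Poly (fun p : α × ℕ => eL (k p.1) p.2) := poly_eL hk' (Poly.snd Poly.id)
  exact Poly.isub (Poly.isub (Poly.natCast (poly_gdet (poly_snoc hS' (poly_addL hy' he))))
    (Poly.natCast (poly_gdet (poly_snoc hS' hy'))))
    (Poly.natCast (poly_gdet (poly_snoc hS' he)))

theorem poly_rowsW {R : α → List (List ℤ)} {k : α → ℕ} {w : α → List ℤ} (hR : Poly R)
    (hk : UPoly k) (hw : Poly w) : Poly (fun a => rowsW (R a) (k a) (w a)) := by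
  unfold rowsW
  refine Poly.append ?_ ?_
  · exact Poly.map (F := fun a r => mulL r (w a)) hR
      (poly_mulL (Poly.snd Poly.id) (hw.comp (Poly.fst Poly.id)))
  · refine Poly.map (F := fun a j => eL (k a) j) ?_
      (poly_eL (hk.comp (Poly.fst Poly.id)) (Poly.snd Poly.id))
    exact Poly.filter (p := fun a j => decide ((w a).getD j 0 = 0)) (UPoly.range hk)
      (Poly.decide_eq (poly_getD0 (hw.comp (Poly.fst Poly.id)) (Poly.snd Poly.id))
        (Poly.const 0))

/-! ## The perceptron -/

theorem poly_badj {w z : α → List ℤ} {j : α → ℕ} (hw : Poly w) (hz : Poly z) (hj : Poly j) :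
    Poly (fun a => badj (w a) (z a) (j a)) := by
  unfold badj
  refine Poly.and ?_ (Poly.ile (poly_getD0 hz hj) (Poly.const 0))
  exact (Poly.not (Poly.decide_eq (poly_getD0 hw hj) (Poly.const 0))).congr fun a => by
    by_cases h : (w a).getD (j a) 0 = 0 <;> simp

theorem poly_pstep {S : α → List (List ℤ)} {k : α → ℕ} {w y : α → List ℤ} (hS : Poly S)
    (hk : UPoly k) (hw : Poly w) (hy : Poly y) :
    Poly (fun a => pstep (S a) (k a) (w a) (y a)) := by
  unfold pstep
  refine (Poly.optCases (o := fun a => (List.range (k a)).find?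
      (badj (w a) (projL (S a) (k a) (y a)))) (g := y)
    (h := fun a j => addL (y a) (eL (k a) j)) ?_ hy ?_).congr fun a => by
      cases (List.range (k a)).find? (badj (w a) (projL (S a) (k a) (y a))) <;> rfl
  · have hz : Poly (fun a => projL (S a) (k a) (y a)) := poly_projL hS hk hy
    exact poly_find (p := fun a => badj (w a) (projL (S a) (k a) (y a))) (UPoly.range hk)
      (poly_badj (w := fun p : α × ℕ => w p.1) (z := fun p : α × ℕ => projL (S p.1) (k p.1) (y p.1))
        (j := fun p : α × ℕ => p.2) (hw.comp (Poly.fst Poly.id)) (hz.comp (Poly.fst Poly.id))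
        (Poly.snd Poly.id))
  · exact poly_addL (hy.comp (Poly.fst Poly.id))
      (poly_eL (hk.comp (Poly.fst Poly.id)) (Poly.snd Poly.id))

theorem length_addL_eL {k : ℕ} {y : List ℤ} (hy : y.length = k) (j : ℕ) :
    (addL y (eL k j)).length = k := by
  simp [addL, eL, hy]

theorem mem_addL_eL {k : ℕ} {y : List ℤ} {B : ℕ} (hB : ∀ x ∈ y, x.natAbs ≤ B) (j : ℕ) :
    ∀ x ∈ addL y (eL k j), x.natAbs ≤ B + 1 := by
  intro x hx
  unfold addL at hx
  rw [List.mem_iff_getElem] at hx
  obtain ⟨i, hi, rfl⟩ := hx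
  rw [List.getElem_zipWith]
  have h1 := hB _ (List.getElem_mem (l := y) (n := i) (by
    rw [List.length_zipWith] at hi; omega))
  have h2 : ((eL k j)[i]'(by rw [List.length_zipWith] at hi; omega)).natAbs ≤ 1 := by
    simp only [eL, List.getElem_map]
    split_ifs <;> simp
  refine (Int.natAbs_add_le _ _).trans ?_
  omega

theorem pstep_inv (S : List (List ℤ)) {k : ℕ} (w : List ℤ) {y : List ℤ} {B : ℕ}
    (hy : y.length = k) (hB : ∀ x ∈ y, x.natAbs ≤ B) :
    (pstep S k w y).length = k ∧ ∀ x ∈ pstep S k w y, x.natAbs ≤ B + 1 := by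
  unfold pstep
  split
  · exact ⟨hy, fun x hx => (hB x hx).trans (Nat.le_succ _)⟩
  · exact ⟨length_addL_eL hy _, mem_addL_eL hB _⟩

theorem pstep_iter (S : List (List ℤ)) (k : ℕ) (w : List ℤ) (t : ℕ) :
    ((pstep S k w)^[t] (List.replicate k 0)).length = k ∧
      ∀ x ∈ (pstep S k w)^[t] (List.replicate k 0), x.natAbs ≤ t := by
  induction t with
  | zero =>
    refine ⟨by simp, fun x hx => ?_⟩
    rw [Function.iterate_zero, id_eq, List.mem_replicate] at hx
    simp [hx.2]
  | succ t ih =>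
    rw [Function.iterate_succ_apply']
    exact pstep_inv S w ih.1 ih.2

theorem upoly_le {k : α → ℕ} (hk : UPoly k) : ∃ r : Polynomial ℕ, ∀ a, k a ≤ r.eval (sz a) := by
  obtain ⟨r, hr⟩ := Poly.sz_le hk
  refine ⟨r, fun a => ?_⟩
  have h1 := hr a
  have h2 := sz_rep (k a)
  omega

theorem UPoly.pow {k : α → ℕ} (hk : UPoly k) (n : ℕ) : UPoly (fun a => k a ^ n) := by
  have h := UPoly.eval hk (Polynomial.X ^ n)
  simpa only [Polynomial.eval_pow, Polynomial.eval_X] using h

theorem poly_prun {S : α → List (List ℤ)} {k : α → ℕ} {w : α → List ℤ} (hS : Poly S)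
    (hk : UPoly k) (hw : Poly w) : Poly (fun a => prun (S a) (k a) (w a)) := by
  unfold prun
  obtain ⟨r, hr⟩ := upoly_le hk
  have hn : UPoly (fun a => 4 * k a ^ 3) := UPoly.mul (UPoly.const 4) (UPoly.pow hk 3)
  refine (Poly.iterLen (l := fun a => List.replicate (4 * k a ^ 3) ())
    (s := fun a => List.replicate (k a) (0 : ℤ)) (F := fun a y => pstep (S a) (k a) (w a) y)
    hn (poly_rep hk (Poly.const _))
    (poly_pstep (hS.comp (Poly.fst Poly.id)) (hk.comp (Poly.fst Poly.id))
      (hw.comp (Poly.fst Poly.id)) (Poly.snd Poly.id))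
    (r * (Polynomial.C 4 * (Polynomial.C 4 * r ^ 3) + Polynomial.C 6) + Polynomial.C 1)
    ?_).congr ?_
  · intro a t ht
    rw [List.length_replicate] at ht
    obtain ⟨h1, h2⟩ := pstep_iter (S a) (k a) (w a) t
    have h3 := hr a
    have h4 : 4 * k a ^ 3 ≤ 4 * (r.eval (sz a)) ^ 3 :=
      Nat.mul_le_mul_left _ (Nat.pow_le_pow_left h3 3)
    have h5 : ∀ x ∈ (pstep (S a) (k a) (w a))^[t] (List.replicate (k a) 0),
        x.natAbs < 2 ^ (4 * (r.eval (sz a)) ^ 3) := fun x hx =>
      lt_of_le_of_lt ((h2 x hx).trans (ht.trans h4)) Nat.lt_two_pow_self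
    refine (sz_vec_le (b := r.eval (sz a)) (by omega) h5).trans ?_
    simp only [Polynomial.eval_add, Polynomial.eval_mul, Polynomial.eval_C, Polynomial.eval_pow]
    exact le_rfl
  · intro a
    rw [List.length_replicate]

/-! ## The rounds -/

theorem poly_halve {k : α → ℕ} {w : α → List ℤ} {j : α → ℕ} (hk : UPoly k) (hw : Poly w)
    (hj : Poly j) : Poly (fun a => halve (k a) (w a) (j a)) := by
  unfold halve
  refine Poly.map (F := fun a i => if i = j a then (w a).getD i 0 / 2 else (w a).getD i 0)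
    (UPoly.range hk) ?_
  have hg : Poly (fun p : α × ℕ => (w p.1).getD p.2 0) :=
    poly_getD0 (hw.comp (Poly.fst Poly.id)) (Poly.snd Poly.id)
  have hd : Poly (fun p : α × ℕ => (w p.1).getD p.2 0 / 2) :=
    (Poly.idiv (n := fun _ => 2) hg (Poly.const 2)).congr fun p => by simp
  exact Poly.ite (p := fun p : α × ℕ => p.2 = j p.1)
    (Poly.decide_eq (Poly.snd Poly.id) (hj.comp (Poly.fst Poly.id))) hd hg

theorem poly_rnd {R : α → List (List ℤ)} {k : α → ℕ} {w : α → List ℤ} (hR : Poly R)
    (hk : UPoly k) (hw : Poly w) : Poly (fun a => rnd (R a) (k a) (w a)) := by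
  unfold rnd
  have hS : Poly (fun a => sel (rowsW (R a) (k a) (w a))) := poly_sel (poly_rowsW hR hk hw)
  have hy : Poly (fun a => prun (sel (rowsW (R a) (k a) (w a))) (k a) (w a)) :=
    poly_prun hS hk hw
  have hz : Poly (fun a => projL (sel (rowsW (R a) (k a) (w a))) (k a)
      (prun (sel (rowsW (R a) (k a) (w a))) (k a) (w a))) := poly_projL hS hk hy
  refine Poly.ite (p := fun a => (List.range (k a)).any (badj (w a)
    (projL (sel (rowsW (R a) (k a) (w a))) (k a)
      (prun (sel (rowsW (R a) (k a) (w a))) (k a) (w a)))) = true) (Poly.decide_bool ?_) ?_ hw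
  · exact Poly.any (p := fun a => badj (w a) (projL (sel (rowsW (R a) (k a) (w a))) (k a)
      (prun (sel (rowsW (R a) (k a) (w a))) (k a) (w a)))) (UPoly.range hk)
      (poly_badj (w := fun p : α × ℕ => w p.1)
        (z := fun p : α × ℕ => projL (sel (rowsW (R p.1) (k p.1) (w p.1))) (k p.1)
          (prun (sel (rowsW (R p.1) (k p.1) (w p.1))) (k p.1) (w p.1)))
        (j := fun p : α × ℕ => p.2) (hw.comp (Poly.fst Poly.id)) (hz.comp (Poly.fst Poly.id))
        (Poly.snd Poly.id))
  · refine (Poly.optCases (o := fun a => (List.range (k a)).find? (fun j =>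
      decide (4 * (k a : ℤ) ^ 2 ≤ (prun (sel (rowsW (R a) (k a) (w a))) (k a) (w a)).getD j 0)))
      (g := w) (h := fun a j => halve (k a) (w a) j) ?_ hw ?_).congr fun a => by
        cases (List.range (k a)).find? (fun j => decide (4 * (k a : ℤ) ^ 2 ≤
          (prun (sel (rowsW (R a) (k a) (w a))) (k a) (w a)).getD j 0)) <;> rfl
    · refine poly_find (p := fun a j =>
        decide (4 * (k a : ℤ) ^ 2 ≤ (prun (sel (rowsW (R a) (k a) (w a))) (k a) (w a)).getD j 0))
        (UPoly.range hk) (Poly.ile ?_ (poly_getD0 (hy.comp (Poly.fst Poly.id))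
          (Poly.snd Poly.id)))
      exact Poly.imul (Poly.const 4) (Poly.ipow (Poly.natCast (UPoly.toPoly
        (hk.comp (Poly.fst Poly.id)))) (UPoly.const 2))
    · exact poly_halve (hk.comp (Poly.fst Poly.id)) (hw.comp (Poly.fst Poly.id))
        (Poly.snd Poly.id)

theorem natAbs_getD_le {w : List ℤ} {B : ℕ} (hB : ∀ x ∈ w, x.natAbs ≤ B) (i : ℕ) :
    (w.getD i 0).natAbs ≤ B := by
  rw [List.getD_eq_getElem?_getD]
  by_cases h : i < w.length
  · rw [List.getElem?_eq_getElem h, Option.getD_some]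
    exact hB _ (List.getElem_mem _)
  · rw [List.getElem?_eq_none (by omega)]
    simp

theorem halve_inv {k : ℕ} {w : List ℤ} {B : ℕ} (hB : ∀ x ∈ w, x.natAbs ≤ B) (j : ℕ) :
    (halve k w j).length = k ∧ ∀ x ∈ halve k w j, x.natAbs ≤ B := by
  refine ⟨by simp [halve], fun x hx => ?_⟩
  unfold halve at hx
  obtain ⟨i, -, rfl⟩ := List.mem_map.1 hx
  have h := natAbs_getD_le hB i
  split_ifs
  · exact (Int.natAbs_ediv_le_natAbs _ _).trans h
  · exact h

theorem rnd_inv (R : List (List ℤ)) {k : ℕ} {w : List ℤ} {B : ℕ} (hw : w.length = k)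
    (hB : ∀ x ∈ w, x.natAbs ≤ B) :
    (rnd R k w).length = k ∧ ∀ x ∈ rnd R k w, x.natAbs ≤ B := by
  unfold rnd
  simp only
  split
  · split
    · exact ⟨hw, hB⟩
    · exact halve_inv hB _
  · exact ⟨hw, hB⟩

theorem rnd_iter (R : List (List ℤ)) (k B t : ℕ) :
    ((rnd R k)^[t] (List.replicate k (2 ^ B : ℤ))).length = k ∧
      ∀ x ∈ (rnd R k)^[t] (List.replicate k (2 ^ B : ℤ)), x.natAbs ≤ 2 ^ B := by
  induction t with
  | zero =>
    refine ⟨by simp, fun x hx => ?_⟩
    rw [Function.iterate_zero, id_eq, List.mem_replicate] at hx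
    rw [hx.2, Int.natAbs_pow]
    simp
  | succ t ih =>
    rw [Function.iterate_succ_apply']
    exact rnd_inv R ih.1 ih.2

theorem upoly_bet {R : α → List (List ℤ)} {k : α → ℕ} (hR : Poly R) (hk : UPoly k) :
    UPoly (fun a => bet (R a) (k a)) := by
  unfold bet ell
  have h1 : UPoly (fun a => sz (R a)) := usz.comp hR
  exact UPoly.mul (UPoly.const 30) (UPoly.pow (UPoly.mul (UPoly.const 10)
    (UPoly.pow (UPoly.add (UPoly.add h1 hk) (UPoly.const 1)) 2)) 2)

theorem poly_wfin {R : α → List (List ℤ)} {k : α → ℕ} (hR : Poly R) (hk : UPoly k) :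
    Poly (fun a => wfin (R a) (k a)) := by
  unfold wfin
  have hb := upoly_bet hR hk
  obtain ⟨r, hr⟩ := upoly_le hk
  obtain ⟨q, hq⟩ := upoly_le hb
  have hn : UPoly (fun a => k a * (bet (R a) (k a) + 1)) :=
    UPoly.mul hk (UPoly.add hb (UPoly.const 1))
  refine (Poly.iterLen (l := fun a => List.replicate (k a * (bet (R a) (k a) + 1)) ())
    (s := fun a => List.replicate (k a) (2 ^ bet (R a) (k a) : ℤ))
    (F := fun a w => rnd (R a) (k a) w)
    hn (poly_rep hk (Poly.ipow (Poly.const 2) hb))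
    (poly_rnd (hR.comp (Poly.fst Poly.id)) (hk.comp (Poly.fst Poly.id)) (Poly.snd Poly.id))
    (r * (Polynomial.C 4 * (q + Polynomial.C 1) + Polynomial.C 6) + Polynomial.C 1)
    ?_).congr ?_
  · intro a t _
    obtain ⟨h1, h2⟩ := rnd_iter (R a) (k a) (bet (R a) (k a)) t
    have h3 := hr a
    have h4 := hq a
    have h5 : ∀ x ∈ (rnd (R a) (k a))^[t] (List.replicate (k a) (2 ^ bet (R a) (k a) : ℤ)),
        x.natAbs < 2 ^ (q.eval (sz a) + 1) := fun x hx =>
      lt_of_le_of_lt (h2 x hx) (Nat.pow_lt_pow_right (by norm_num) (by omega))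
    refine (sz_vec_le (b := r.eval (sz a)) (by omega) h5).trans ?_
    simp only [Polynomial.eval_add, Polynomial.eval_mul, Polynomial.eval_C]
    exact le_rfl
  · intro a
    rw [List.length_replicate]

theorem poly_kcand {R : α → List (List ℤ)} {k : α → ℕ} (hR : Poly R) (hk : UPoly k) :
    Poly (fun a => kcand (R a) (k a)) := by
  unfold kcand
  have hw := poly_wfin hR hk
  have hS : Poly (fun a => sel (rowsW (R a) (k a) (wfin (R a) (k a)))) :=
    poly_sel (poly_rowsW hR hk hw)
  exact poly_mulL hw (poly_projL hS hk (poly_prun hS hk hw))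

theorem poly_ktest {R : α → List (List ℤ)} {k i : α → ℕ} {x : α → List ℤ} (hR : Poly R)
    (hk : Poly k) (hi : Poly i) (hx : Poly x) :
    Poly (fun a => ktest (R a) (k a) (i a) (x a)) := by
  unfold ktest
  refine Poly.and (Poly.and (Poly.and (Poly.decide_eq (Poly.length hx) hk) ?_) ?_) ?_
  · exact Poly.all (p := fun _ b => decide (0 ≤ b)) hx (Poly.ile (Poly.const 0) (Poly.snd Poly.id))
  · exact Poly.all (p := fun a r => decide (dotL r (x a) = 0)) hR
      (Poly.decide_eq (poly_dotL (Poly.snd Poly.id) (hx.comp (Poly.fst Poly.id))) (Poly.const 0))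
  · exact Poly.ilt (Poly.const 0) (poly_getD0 hx hi)

/-- The solver `ks` is computable in polynomial time. -/
theorem poly_ks {α : Type} [TEnc α] {R : α → List (List ℤ)} {k i : α → ℕ} (hR : Poly R)
    (hk : UPoly k) (hi : Poly i) : Poly (fun a => ks (R a) (k a) (i a)) := by
  unfold ks
  have hc := poly_kcand hR hk
  exact Poly.ite (p := fun a => ktest (R a) (k a) (i a) (kcand (R a) (k a)) = true)
    (Poly.decide_bool (poly_ktest hR hk.toPoly hi hc)) (Poly.some hc) (Poly.const none)

end Pool.Agent.NPC.W29Ks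

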