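import Pool.Agent.W29.RQSNK

set_option autoImplicit false

open Polynomial Topology Filter Metric Set
open scoped OnePoint

namespace Pool.Agent.W29.RQAPP

open Pool.Agent.W757.QR Pool.Agent.H790R3.RB Pool.Agent.W29.RQSNK

/-! ### Dependence on the parameters -/

theorem pol_cd {d : ℕ} (i : Fin 2) (n : WithTop ℕ∞) :
    ContDiff ℂ n (fun q : CV d × ℂ => (pol q.1 i).eval q.2) := by
  have e : (fun q : CV d × ℂ => (pol q.1 i).eval q.2) =
      fun q : CV d × ℂ => ∑ j : Fin (d + 1), q.1 (i, j) * (q.2 ^ (j : ℕ) * 1 ^ (d - (j : ℕ))) := by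
    funext q
    exact PQ.pol_eval q.1 i q.2
  rw [e]
  fun_prop

theorem fx_cd {d : ℕ} (n : WithTop ℕ∞) (q : CV d × ℂ) (h : (de q.1).eval q.2 ≠ 0) :
    ContDiffAt ℂ n (fun q : CV d × ℂ => fx q.1 q.2) q :=
  (pol_cd 0 n).contDiffAt.div (pol_cd 1 n).contDiffAt h

/-- the iterates as functions of the map and the point -/
theorem iter_cd {d : ℕ} (n : WithTop ℕ∞) (N : ℕ) (q : CV d × ℂ)
    (h : ∀ j < N, (de q.1).eval ((fx q.1)^[j] q.2) ≠ 0) :
    ContDiffAt ℂ n (fun q : CV d × ℂ => (fx q.1)^[N] q.2) q := by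
  induction N with
  | zero => exact contDiff_snd.contDiffAt
  | succ N ih =>
    have e : (fun q : CV d × ℂ => (fx q.1)^[N + 1] q.2) =
        (fun q : CV d × ℂ => fx q.1 q.2) ∘ (fun q : CV d × ℂ => (q.1, (fx q.1)^[N] q.2)) := by
      funext q
      simp only [Function.comp_apply, Function.iterate_succ_apply']
    rw [e]
    refine ContDiffAt.comp q (fx_cd n _ ?_) (contDiff_fst.contDiffAt.prodMk (ih fun j hj =>
      h j (by omega)))
    exact h N (by omega)

theorem ne_nhds {d : ℕ} (N : ℕ) (q : CV d × ℂ)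
    (h : ∀ j < N, (de q.1).eval ((fx q.1)^[j] q.2) ≠ 0) :
    ∀ᶠ q' : CV d × ℂ in 𝓝 q, ∀ j < N, (de q'.1).eval ((fx q'.1)^[j] q'.2) ≠ 0 := by
  have h1 : ∀ᶠ q' : CV d × ℂ in 𝓝 q, ∀ j ∈ Finset.range N,
      (de q'.1).eval ((fx q'.1)^[j] q'.2) ≠ 0 := by
    rw [Finset.eventually_all]
    intro j hj
    rw [Finset.mem_range] at hj
    have hc : ContinuousAt (fun q' : CV d × ℂ => (de q'.1).eval ((fx q'.1)^[j] q'.2)) q := by
      have h2 : ContinuousAt (fun q' : CV d × ℂ => (q'.1, (fx q'.1)^[j] q'.2)) q :=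
        continuousAt_fst.prodMk (iter_cd 0 j q fun i hi => h i (by omega)).continuousAt
      exact ContinuousAt.comp (g := fun q : CV d × ℂ => (pol q.1 1).eval q.2)
        ((pol_cd 1 0).continuous.continuousAt) h2
    exact hc.eventually_ne (h j hj)
  filter_upwards [h1] with q' hq' j hj
  exact hq' j (Finset.mem_range.2 hj)

/-- Local control of an iterate: Lipschitz dependence on the map and the point. -/
theorem loc_lip {d : ℕ} (N : ℕ) (x : CV d) (a : ℂ)
    (h : ∀ j < N, (de x).eval ((fx x)^[j] a) ≠ 0) :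
    ∃ ρ K : ℝ, 0 < ρ ∧ 0 ≤ K ∧ (∀ x' : CV d, ‖x' - x‖ < ρ → ∀ w ∈ ball a ρ,
      ∀ j < N, (de x').eval ((fx x')^[j] w) ≠ 0) ∧
      ∀ x' : CV d, ‖x' - x‖ < ρ → ∀ w ∈ ball a ρ, ∀ w' ∈ ball a ρ,
        ‖(fx x')^[N] w - (fx x)^[N] w'‖ ≤ K * (‖x' - x‖ + ‖w - w'‖) := by
  obtain ⟨K, t, ht, hK⟩ := (iter_cd 1 N (x, a) h).exists_lipschitzOnWith
  have h1 := (ne_nhds N (x, a) h).and ht
  obtain ⟨ρ, hρ, hb⟩ := Metric.eventually_nhds_iff_ball.1 h1
  refine ⟨ρ, K, hρ, K.2, ?_, ?_⟩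
  · intro x' hx' w hw
    refine (hb (x', w) ?_).1
    rw [mem_ball, Prod.dist_eq, max_lt_iff]
    exact ⟨by rwa [dist_eq_norm], hw⟩
  · intro x' hx' w hw w' hw'
    have m1 : (x', w) ∈ t := (hb (x', w) (by
      rw [mem_ball, Prod.dist_eq, max_lt_iff]; exact ⟨by rwa [dist_eq_norm], hw⟩)).2
    have m2 : (x, w') ∈ t := (hb (x, w') (by
      rw [mem_ball, Prod.dist_eq, max_lt_iff]; exact ⟨by rwa [dist_self], hw'⟩)).2
    have h2 := hK.dist_le_mul _ m1 _ m2
    simp only [Prod.dist_eq] at h2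
    rw [dist_eq_norm, dist_eq_norm, dist_eq_norm] at h2
    refine h2.trans (mul_le_mul_of_nonneg_left ?_ K.2)
    exact max_le_add_of_nonneg (norm_nonneg _) (norm_nonneg _)

/-! ### Centred return maps -/

/-- the return map in the coordinate centred at `a` -/
noncomputable def cen {d : ℕ} (x : CV d) (p : ℕ) (a : ℂ) : ℂ → ℂ :=
  fun v => (fx x)^[p] (a + v) - a

theorem cen_iter {d : ℕ} (x : CV d) (p : ℕ) (a v : ℂ) (j : ℕ) :
    (cen x p a)^[j] v = (fx x)^[p * j] (a + v) - a := by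
  induction j with
  | zero => simp
  | succ j ih =>
    rw [Function.iterate_succ_apply', ih]
    simp only [cen]
    rw [add_sub_cancel, ← Function.iterate_add_apply, show p + p * j = p * (j + 1) by ring]

theorem cen_deriv {d : ℕ} (x : CV d) (p : ℕ) (a : ℂ) :
    deriv (cen x p a) 0 = deriv ((fx x)^[p]) a := by
  unfold cen
  rw [deriv_sub_const, deriv_comp_const_add, add_zero]

theorem cen_diffAt {d : ℕ} (x : CV d) (p : ℕ) (a v : ℂ)
    (h : ∀ j < p, (de x).eval ((fx x)^[j] (a + v)) ≠ 0) : DifferentiableAt ℂ (cen x p a) v := by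
  unfold cen
  exact ((fx_iter_diff x (a + v) p h).comp v (differentiableAt_id.const_add a)).sub_const a

/-- closeness of the centred return maps along a perturbation -/
theorem cen_close {d : ℕ} {x : CV d} {p : ℕ} {a ρ₁ : ℂ} {X : ℝ → CV d} {y : ℝ → ℂ} {k : ℕ}
    {t₀ C₀ : ℝ} (h : PC x p a ρ₁ X y k t₀ C₀) :
    ∃ r t₁ C : ℝ, 0 < r ∧ 0 < t₁ ∧ t₁ ≤ t₀ ∧ 0 ≤ C ∧
      (∀ v ∈ ball (0 : ℂ) r, ∀ j < p, (de x).eval ((fx x)^[j] (a + v)) ≠ 0) ∧
      ∀ t : ℝ, 0 ≤ t → t < t₁ → ∀ v ∈ ball (0 : ℂ) r,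
        (∀ j < p, (de (X t)).eval ((fx (X t))^[j] (y t + v)) ≠ 0) ∧
        ‖cen (X t) p (y t) v - cen x p a v‖ ≤ C * t := by
  obtain ⟨ρ, K, hρ, hK, h1, h2⟩ := loc_lip p x a (fun j _ => h.fin j)
  have hC₀ := h.C0
  refine ⟨ρ / 2, min t₀ (ρ / (4 * C₀)), K * (C₀ + C₀) + C₀, by positivity,
    lt_min h.t0 (by positivity), min_le_left _ _, by positivity, ?_, ?_⟩
  · intro v hv j hj
    refine h1 x (by rw [sub_self, norm_zero]; exact hρ) (a + v) ?_ j hj
    rw [mem_ball, dist_eq_norm] at hv ⊢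
    rw [add_sub_cancel_left]
    rw [sub_zero] at hv
    linarith
  · intro t ht htt v hv
    have ht0 : t ≤ t₀ := (htt.trans_le (min_le_left _ _)).le
    have hCt : C₀ * t ≤ ρ / 4 := by
      have h3 := (htt.trans_le (min_le_right _ _)).le
      rw [le_div_iff₀ (by positivity)] at h3
      linarith
    have hXt := h.cf t ht ht0
    have hyt := h.yx t ht ht0
    have hv' : ‖v‖ < ρ / 2 := by simpa using hv
    have m1 : y t + v ∈ ball a ρ := by
      rw [mem_ball, dist_eq_norm, show y t + v - a = (y t - a) + v by ring]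
      refine (norm_add_le _ _).trans_lt ?_
      linarith
    have m2 : a + v ∈ ball a ρ := by
      rw [mem_ball, dist_eq_norm, add_sub_cancel_left]
      linarith
    have m3 : ‖X t - x‖ < ρ := by linarith
    refine ⟨h1 _ m3 _ m1, ?_⟩
    have h4 := h2 (X t) m3 _ m1 _ m2
    rw [add_sub_add_right_eq_sub] at h4
    have h5 : cen (X t) p (y t) v - cen x p a v =
        ((fx (X t))^[p] (y t + v) - (fx x)^[p] (a + v)) - (y t - a) := by
      simp only [cen]; ring
    rw [h5]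
    refine (norm_sub_le _ _).trans ?_
    have h6 : K * (‖X t - x‖ + ‖y t - a‖) ≤ K * (C₀ * t + C₀ * t) :=
      mul_le_mul_of_nonneg_left (by linarith) hK
    linarith

/-- A point whose orbit enters a small disc, stays there at the times divisible by the period and
converges to the base point is attracted. -/
theorem attd_of {d : ℕ} (hS : StSNK) {x : CV d} (hd : 2 ≤ d) (hx : ND x) {p : ℕ} {a : ℂ}
    (hp : 0 < p) (ha : Fin' x a) (hfix : (fx x)^[p] a = a) (hm : ‖deriv ((fx x)^[p]) a‖ < 1)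
    {r : ℝ} (hr : ∀ v ∈ ball (0 : ℂ) r, ∀ j < p, (de x).eval ((fx x)^[j] (a + v)) ≠ 0) {z : ℂ}
    {N₀ : ℕ} (hz : ∀ j < p * N₀, (de x).eval ((fx x)^[j] z) ≠ 0)
    (hin : ∀ k : ℕ, (cen x p a)^[k] ((fx x)^[p * N₀] z - a) ∈ ball (0 : ℂ) r)
    (hlim : Tendsto (fun k : ℕ => (cen x p a)^[k] ((fx x)^[p * N₀] z - a)) atTop (𝓝 0)) :
    Attd (sp x) (z : OnePoint ℂ) := by
  obtain ⟨h1, -, h3⟩ := hS d x hd hx
  have hit : ∀ k : ℕ, (cen x p a)^[k] ((fx x)^[p * N₀] z - a) =
      (fx x)^[p * (k + N₀)] z - a := by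
    intro k
    rw [cen_iter, add_sub_cancel, ← Function.iterate_add_apply, mul_add]
  have hfin : Fin' x z := by
    intro j
    rcases lt_or_ge j (p * N₀) with hj | hj
    · exact hz j hj
    · have e : j = (j - p * N₀) % p + p * ((j - p * N₀) / p + N₀) := by
        have := Nat.mod_add_div (j - p * N₀) p
        rw [mul_add]
        omega
      rw [e, Function.iterate_add_apply]
      have h4 := hin ((j - p * N₀) / p)
      rw [hit] at h4
      have h5 := hr _ h4 _ (Nat.mod_lt (j - p * N₀) hp)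
      rwa [add_sub_cancel] at h5
  refine ⟨p, (a : OnePoint ℂ), h3 p a hp ha hfix hm, ?_⟩
  have h6 : Tendsto (fun k : ℕ => (fx x)^[p * k] z) atTop (𝓝 a) := by
    have h7 : Tendsto (fun k : ℕ => (fx x)^[p * (k + N₀)] z) atTop (𝓝 a) := by
      have h8 := hlim.add_const a
      simp only [hit, sub_add_cancel, zero_add] at h8
      exact h8
    exact (tendsto_add_atTop_iff_nat (f := fun j : ℕ => (fx x)^[p * j] z) N₀).1 h7
  have h9 : Tendsto (fun k : ℕ => (((fx x)^[p * k] z : ℂ) : OnePoint ℂ)) atTop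
      (𝓝 (a : OnePoint ℂ)) := (OnePoint.continuous_coe.tendsto a).comp h6
  refine h9.congr fun k => ?_
  exact (h1 z hfin (p * k)).symm

theorem task : StAPP := by
  intro hS hPBL d x p a X y k t₀ C₀ z hPC hz hlim hne
  have hp := hPC.pp
  obtain ⟨r, t₂, C, hr, ht₂, ht₂0, hC, hfr, hclose⟩ := cen_close hPC
  have horb : ∀ i : ℕ, (cen x p a)^[i] (z - a) = (fx x)^[p * i] z - a := by
    intro i
    rw [cen_iter, add_sub_cancel]
  have hlim0 : Tendsto (fun i : ℕ => (cen x p a)^[i] (z - a)) atTop (𝓝 0) := by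
    simp only [horb]
    have := hlim.sub_const a
    simpa using this
  have hne0 : ∀ i : ℕ, (cen x p a)^[i] (z - a) ≠ 0 := by
    intro i
    rw [horb]
    exact sub_ne_zero.2 (hne i)
  obtain ⟨i₀, hi₀⟩ := eventually_atTop.1 (hlim0.eventually (ball_mem_nhds (0 : ℂ) hr))
  have hF0 : cen x p a 0 = 0 := by simp [cen, hPC.fix]
  have hF1 : deriv (cen x p a) 0 = 1 := by rw [cen_deriv, hPC.mul]
  have hnid : ∃ w ∈ ball (0 : ℂ) r, cen x p a w ≠ w := by
    by_contra hcon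
    push Not at hcon
    have hconst : ∀ j : ℕ, (cen x p a)^[i₀ + j] (z - a) = (cen x p a)^[i₀] (z - a) := by
      intro j
      induction j with
      | zero => rfl
      | succ j ih =>
        rw [← add_assoc, Function.iterate_succ_apply', hcon _ (hi₀ _ (by omega)), ih]
    have hl2 : Tendsto (fun j : ℕ => (cen x p a)^[i₀ + j] (z - a)) atTop (𝓝 0) := by
      have := (tendsto_add_atTop_iff_nat i₀).2 hlim0
      simpa [add_comm] using this
    simp only [hconst] at hl2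
    exact hne0 i₀ (tendsto_nhds_unique tendsto_const_nhds hl2)
  have hit : ∀ j : ℕ, (cen x p a)^[j] ((cen x p a)^[i₀] (z - a)) =
      (cen x p a)^[j + i₀] (z - a) := fun j => (Function.iterate_add_apply _ _ _ _).symm
  obtain ⟨k₀, δ, s₀, hδ, hs₀, hmain⟩ := hPBL (cen x p a) r C
    ((cen x p a)^[i₀] (z - a)) hr hC
    (fun v hv => (cen_diffAt x p a v (hfr v hv)).differentiableWithinAt) hF0 hF1 hnid
    (fun j => by rw [hit]; exact ⟨hi₀ _ (by omega), hne0 _⟩)
    (by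
      simp only [hit]
      exact (tendsto_add_atTop_iff_nat i₀).2 hlim0)
  -- closeness of the long iterate
  obtain ⟨ρ', K', hρ', hK', hfin', hcl'⟩ := loc_lip (p * (k₀ + i₀)) x z (fun j _ => hz j)
  have hC₀ := hPC.C0
  have hs : Tendsto (fun t : ℝ => 1 - (1 - t) ^ k) (𝓝 0) (𝓝 0) := by
    have : Continuous (fun t : ℝ => 1 - (1 - t) ^ k) := by fun_prop
    have := this.tendsto 0
    simpa using this
  obtain ⟨t₃, ht₃, ht₃'⟩ := Metric.eventually_nhds_iff.1 (hs.eventually (gt_mem_nhds hs₀))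
  set B : ℝ := K' * (C₀ + 1) + C₀ + 1 with hB
  have hB0 : 0 < B := by positivity
  set δ' : ℝ := min (ρ' / (C₀ + 1)) (δ / (2 * B)) with hδ'
  have hδ'0 : 0 < δ' := lt_min (by positivity) (by positivity)
  have hδ'1 : (C₀ + 1) * δ' ≤ ρ' := by
    have h1 : δ' ≤ ρ' / (C₀ + 1) := min_le_left _ _
    rwa [le_div_iff₀ (by positivity), mul_comm] at h1
  have hδ'2 : B * δ' ≤ δ / 2 := by
    have h1 : δ' ≤ δ / (2 * B) := min_le_right _ _
    rw [le_div_iff₀ (by positivity)] at h1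
    linarith
  refine ⟨δ', min (min t₂ t₃) (min δ' 1), hδ'0, ?_, ?_⟩
  · exact lt_min (lt_min ht₂ ht₃) (lt_min hδ'0 one_pos)
  intro t ht htt z' hz'
  have htt2 : t < t₂ := (htt.trans_le (min_le_left _ _)).trans_le (min_le_left _ _)
  have htt3 : t < t₃ := (htt.trans_le (min_le_left _ _)).trans_le (min_le_right _ _)
  have httd : t < δ' := (htt.trans_le (min_le_right _ _)).trans_le (min_le_left _ _)
  have htt1 : t < 1 := (htt.trans_le (min_le_right _ _)).trans_le (min_le_right _ _)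
  have ht0 : t ≤ t₀ := htt2.le.trans ht₂0
  have hpow : (1 - t) ^ k ≤ 1 - t := by
    calc (1 - t) ^ k ≤ (1 - t) ^ 1 :=
          pow_le_pow_of_le_one (by linarith) (by linarith) hPC.kp
      _ = 1 - t := pow_one _
  have hpow0 : 0 < (1 - t) ^ k := pow_pos (by linarith) _
  have hmul := hPC.mult t ht.le ht0
  have hXt := hPC.cf t ht.le ht0
  have hyt := hPC.yx t ht.le ht0
  have hXρ : ‖X t - x‖ < ρ' := by
    have h1 : C₀ * t < (C₀ + 1) * δ' := by nlinarith
    linarith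
  have hz1 : ‖z' - z‖ < δ' := by simpa [dist_eq_norm] using hz'
  have hz'ρ : z' ∈ ball z ρ' := by
    rw [mem_ball, dist_eq_norm]
    have h1 : δ' ≤ (C₀ + 1) * δ' := by nlinarith
    linarith
  have hres := hmain (1 - (1 - t) ^ k) (by linarith)
    (ht₃' (by rw [Real.dist_eq, sub_zero, abs_of_pos ht]; exact htt3))
    (cen (X t) p (y t))
    (fun v hv => (cen_diffAt _ _ _ v (hclose t ht.le htt2 v hv).1).differentiableWithinAt)
    (fun v hv => ((hclose t ht.le htt2 v hv).2).trans (mul_le_mul_of_nonneg_left (by linarith)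
      hC))
    (by simp [cen, hPC.fixt t ht.le ht0])
    (by rw [cen_deriv, hmul]; push_cast; ring)
    ((fx (X t))^[p * (k₀ + i₀)] z' - y t)
    (by
      rw [mem_ball, dist_eq_norm, hit, horb]
      have e1 := hcl' (X t) hXρ z' hz'ρ z (mem_ball_self hρ')
      have e2 : (fx (X t))^[p * (k₀ + i₀)] z' - y t - ((fx x)^[p * (k₀ + i₀)] z - a) =
          ((fx (X t))^[p * (k₀ + i₀)] z' - (fx x)^[p * (k₀ + i₀)] z) - (y t - a) := by ring
      rw [e2]
      refine (norm_sub_le _ _).trans_lt ?_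
      have e4 : K' * (‖X t - x‖ + ‖z' - z‖) ≤ K' * (C₀ * δ' + δ') := by
        refine mul_le_mul_of_nonneg_left ?_ hK'
        have : C₀ * t ≤ C₀ * δ' := mul_le_mul_of_nonneg_left httd.le hC₀.le
        linarith
      have e5 : C₀ * t ≤ C₀ * δ' := mul_le_mul_of_nonneg_left httd.le hC₀.le
      have e6 : K' * (C₀ * δ' + δ') + C₀ * δ' + δ' = B * δ' := by rw [hB]; ring
      linarith)
  have hm : ‖deriv ((fx (X t))^[p]) (y t)‖ < 1 := by
    rw [hmul, mul_one, norm_pow, Complex.norm_real, Real.norm_eq_abs, abs_of_pos (by linarith)]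
    linarith
  exact attd_of hS hPC.hd (hPC.ndt t ht.le ht0) hp (hPC.fint t ht.le ht0)
    (hPC.fixt t ht.le ht0) hm (fun v hv => (hclose t ht.le htt2 v hv).1)
    (fun j hj => hfin' (X t) hXρ z' hz'ρ j hj) hres.1 hres.2

end Pool.Agent.W29.RQAPP

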