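import Pool.Agent.W757.QR.St

set_option autoImplicit false

open Polynomial

namespace Pool.Agent.W29.RQSYL

open Pool.Agent.W757.QR

/-- the key step -/
theorem key (d : ℕ) (hd : 0 < d) (P Q u v H : ℂ[X]) (h : u * P + v * Q = 1) (hP : P.natDegree = d)
    (hQ : Q.natDegree ≤ d) (hH : H.natDegree ≤ 2 * d) :
    ∃ A B : ℂ[X], A.natDegree ≤ d ∧ B.natDegree ≤ d ∧ A * Q - P * B = H := by
  have hP0 : P ≠ 0 := by
    rintro rfl
    simp at hP
    omega
  have hm : P * (H * v / P) + (H * v) % P = H * v := EuclideanDomain.div_add_mod (H * v) P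
  have hdeg : ((H * v) % P).natDegree ≤ d := by
    have h1 : ((H * v) % P).degree < P.degree := EuclideanDomain.mod_lt (H * v) hP0
    have h2 := Polynomial.natDegree_le_natDegree h1.le
    omega
  have e : P * (-(H * u) - (H * v / P) * Q) = ((H * v) % P) * Q - H := by
    linear_combination (-Q) * hm + (-H) * h
  refine ⟨(H * v) % P, -(H * u) - (H * v / P) * Q, hdeg, ?_, by rw [e]; ring⟩
  by_cases h0 : -(H * u) - (H * v / P) * Q = 0
  · rw [h0]; simp
  · have h3 := Polynomial.natDegree_mul hP0 h0
    rw [e] at h3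
    have h4 : (((H * v) % P) * Q - H).natDegree ≤ 2 * d := by
      refine (Polynomial.natDegree_sub_le _ _).trans (max_le ?_ hH)
      refine Polynomial.natDegree_mul_le.trans ?_
      omega
    omega

theorem task : StSYL := by
  rintro d P Q H ⟨hd, ⟨u, v, huv⟩, hmax⟩ hH
  by_cases hP : P.natDegree = d
  · exact key d (by omega) P Q u v H huv hP (by rw [← hmax]; exact le_max_right _ _) hH
  · have hQ : Q.natDegree = d := by
      rcases max_choice P.natDegree Q.natDegree with h | h
      · exact absurd (h.symm.trans hmax) hP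
      · exact h.symm.trans hmax
    obtain ⟨A, B, hA, hB, hAB⟩ := key d (by omega) Q P v u H (by rw [add_comm]; exact huv) hQ
      (by rw [← hmax]; exact le_max_left _ _) hH
    refine ⟨-B, -A, by rw [natDegree_neg]; exact hB, by rw [natDegree_neg]; exact hA, ?_⟩
    linear_combination hAB

end Pool.Agent.W29.RQSYL

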