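import Pool.Agent.W757.QR.St
import Pool.Agent.H790R3.RB.TPQ
import Pool.Agent.H790R3.RB.TSP

set_option autoImplicit false

open Polynomial Topology Filter Metric Set
open scoped OnePoint

namespace Pool.Agent.W29.RQSNK

open Pool.Agent.W757.QR Pool.Agent.H790R3.RB

theorem sp_fx {d : ℕ} (x : CV d) (z : ℂ) (hz : (de x).eval z ≠ 0) :
    sp x (z : OnePoint ℂ) = ((fx x z : ℂ) : OnePoint ℂ) :=
  PQ.sp_eval x z hz

theorem sp_inf {d : ℕ} (x : CV d) (z : ℂ) (hz : (de x).eval z = 0) :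
    sp x (z : OnePoint ℂ) = ∞ := by
  have h1 : hc (z : OnePoint ℂ) = (z, 1) := rfl
  unfold sp
  rw [h1, PQ.hF_one]
  exact SP.pr_zero hz

theorem sp_iter {d : ℕ} (x : CV d) (z : ℂ) (n : ℕ) (hz : ∀ j < n, (de x).eval ((fx x)^[j] z) ≠ 0) :
    (sp x)^[n] (z : OnePoint ℂ) = (((fx x)^[n] z : ℂ) : OnePoint ℂ) := by
  induction n with
  | zero => rfl
  | succ n ih =>
    rw [Function.iterate_succ_apply', ih (fun j hj => hz j (by omega)),
      Function.iterate_succ_apply', sp_fx x _ (hz n (by omega))]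

theorem fin_of {d : ℕ} (x : CV d) (z : ℂ) (h : ∀ j : ℕ, (sp x)^[j] (z : OnePoint ℂ) ≠ ∞) :
    Fin' x z := by
  intro j
  induction j using Nat.strong_induction_on with
  | _ j ih =>
    intro h0
    apply h (j + 1)
    rw [Function.iterate_succ_apply', sp_iter x z j ih]
    exact sp_inf x _ h0

theorem fx_diff {d : ℕ} (x : CV d) (z : ℂ) (hz : (de x).eval z ≠ 0) :
    DifferentiableAt ℂ (fx x) z :=
  (nu x).differentiable.differentiableAt.div (de x).differentiable.differentiableAt hz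

theorem fx_iter_diff {d : ℕ} (x : CV d) (z : ℂ) (n : ℕ)
    (hz : ∀ j < n, (de x).eval ((fx x)^[j] z) ≠ 0) : DifferentiableAt ℂ ((fx x)^[n]) z := by
  induction n with
  | zero => exact differentiableAt_id
  | succ n ih =>
    rw [Function.iterate_succ']
    exact DifferentiableAt.comp z (fx_diff x _ (hz n (by omega)))
      (ih (fun j hj => hz j (by omega)))

theorem iter_mul {d : ℕ} (x : CV d) (p k : ℕ) (z : ℂ) :
    (fx x)^[p * k] z = ((fx x)^[p])^[k] z := by
  rw [Function.iterate_mul]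

theorem sink {d : ℕ} (x : CV d) (p : ℕ) (a : ℂ) (hp : 0 < p) (ha : Fin' x a)
    (hfix : (fx x)^[p] a = a) (hm : ‖deriv ((fx x)^[p]) a‖ < 1) :
    Sink (sp x) p (a : OnePoint ℂ) := by
  obtain ⟨θ, hθ1, hθ2⟩ := exists_between hm
  have hθ0 : 0 ≤ θ := (norm_nonneg _).trans hθ1.le
  have hd : HasDerivAt ((fx x)^[p]) (deriv ((fx x)^[p]) a) a :=
    (fx_iter_diff x a p (fun j _ => ha j)).hasDerivAt
  have h1 : ∀ᶠ z in 𝓝 a, ‖(fx x)^[p] z - a‖ ≤ θ * ‖z - a‖ := by
    have h2 := hd.isLittleO.def (sub_pos.2 hθ1)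
    filter_upwards [h2] with z hz
    rw [hfix] at hz
    have h3 : (fx x)^[p] z - a = ((fx x)^[p] z - a - (z - a) • deriv ((fx x)^[p]) a) +
        (z - a) • deriv ((fx x)^[p]) a := by ring
    rw [h3]
    refine (norm_add_le _ _).trans ?_
    rw [norm_smul]
    nlinarith [norm_nonneg (z - a)]
  have h2 : ∀ᶠ z in 𝓝 a, ∀ j ∈ Finset.range p, (de x).eval ((fx x)^[j] z) ≠ 0 := by
    rw [Finset.eventually_all]
    intro j _
    have hc : ContinuousAt (fun z => (de x).eval ((fx x)^[j] z)) a :=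
      (de x).continuous.continuousAt.comp
        (fx_iter_diff x a j (fun i _ => ha i)).continuousAt
    exact hc.eventually_ne (ha j)
  obtain ⟨ε, hε, hball⟩ := Metric.eventually_nhds_iff_ball.1 (h1.and h2)
  have hstep : ∀ z ∈ ball a ε, (fx x)^[p] z ∈ ball a ε := by
    intro z hz
    have h3 := (hball z hz).1
    rw [mem_ball, dist_eq_norm] at hz ⊢
    nlinarith [norm_nonneg (z - a)]
  have hit : ∀ (k : ℕ), ∀ z ∈ ball a ε, ((fx x)^[p])^[k] z ∈ ball a ε ∧
      ‖((fx x)^[p])^[k] z - a‖ ≤ θ ^ k * ‖z - a‖ := by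
    intro k
    induction k with
    | zero => intro z hz; exact ⟨hz, by simp⟩
    | succ k ih =>
      intro z hz
      obtain ⟨i1, i2⟩ := ih z hz
      rw [Function.iterate_succ_apply']
      refine ⟨hstep _ i1, ((hball _ i1).1).trans ?_⟩
      rw [pow_succ, mul_comm (θ ^ k) θ, mul_assoc]
      exact mul_le_mul_of_nonneg_left i2 hθ0
  have hfin : ∀ z ∈ ball a ε, Fin' x z := by
    intro z hz j
    have e : j = j % p + p * (j / p) := (Nat.mod_add_div j p).symm
    rw [e, Function.iterate_add_apply, iter_mul]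
    exact (hball _ (hit (j / p) z hz).1).2 _ (Finset.mem_range.2 (Nat.mod_lt _ hp))
  refine ⟨hp, ?_, (fun z : ℂ => (z : OnePoint ℂ)) '' ball a ε,
    OnePoint.isOpenMap_coe.image_mem_nhds (ball_mem_nhds a hε), ?_⟩
  · rw [sp_iter x a p (fun j _ => ha j), hfix]
  · intro V hV
    have hV' : (fun z : ℂ => (z : OnePoint ℂ)) ⁻¹' V ∈ 𝓝 a :=
      OnePoint.continuous_coe.continuousAt.preimage_mem_nhds hV
    obtain ⟨δ, hδ, hδV⟩ := Metric.mem_nhds_iff.1 hV'
    have ht : Tendsto (fun k : ℕ => θ ^ k * ε) atTop (𝓝 (0 * ε)) :=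
      (tendsto_pow_atTop_nhds_zero_of_lt_one hθ0 hθ2).mul_const ε
    rw [zero_mul] at ht
    filter_upwards [ht.eventually (gt_mem_nhds hδ)] with k hk
    rintro _ ⟨z, hz, rfl⟩
    change (sp x)^[p * k] (z : OnePoint ℂ) ∈ V
    rw [sp_iter x z (p * k) (fun j _ => hfin z hz j), iter_mul]
    apply hδV
    rw [mem_ball, dist_eq_norm]
    refine lt_of_le_of_lt (hit k z hz).2 (lt_of_le_of_lt ?_ hk)
    rw [mem_ball, dist_eq_norm] at hz
    exact mul_le_mul_of_nonneg_left hz.le (pow_nonneg hθ0 k)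

theorem task : StSNK := by
  intro d x _ _
  exact ⟨fun z hz j => sp_iter x z j (fun i _ => hz i), fun z h => fin_of x z h,
    fun p a hp ha hfix hm => sink x p a hp ha hfix hm⟩

end Pool.Agent.W29.RQSNK

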