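import Pool.Agent.W757.QR.St

set_option autoImplicit false

open Polynomial

namespace Pool.Agent.W29.RQPF

open Pool.Agent.W757.QR

theorem dvd_of_roots {F N : ℂ[X]} (h0 : F ≠ 0) (hnd : F.roots.Nodup)
    (h : ∀ ζ : ℂ, F.eval ζ = 0 → N.eval ζ = 0) : F ∣ N := by
  by_cases hN : N = 0
  · rw [hN]; exact dvd_zero _
  have hsp := IsAlgClosed.splits F
  have h1 := hsp.eq_prod_roots
  have h2 : (F.roots.map fun a => X - C a).prod ∣ N := by
    rw [Multiset.prod_X_sub_C_dvd_iff_le_roots hN, Multiset.le_iff_subset hnd]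
    intro ζ hζ
    rw [mem_roots hN]
    exact h ζ ((mem_roots h0).1 hζ)
  have hu : IsUnit (C F.leadingCoeff) := isUnit_C.2 (isUnit_iff_ne_zero.2
    (leadingCoeff_ne_zero.2 h0))
  rw [h1]
  exact hu.mul_left_dvd.2 h2

/-- the algebraic identity -/
theorem alg (q q' q'' p p' p'' y R1 R2 H H' M M' a b : ℂ) (hq : q ≠ 0)
    (hw : p' * q - p * q' ≠ 0) (hP : p - y * q ≠ 0)
    (hM : M = (p - y * q) * R1) (hM' : M' = (p' - y * q') * R1 - (p - y * q) * R2)
    (hH : (p - y * q) * H = q ^ 3 - (p' * q - p * q') * M)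
    (hH' : (p' - y * q') * H + (p - y * q) * H' = 3 * q ^ 2 * q' -
      (p'' * q - p * q'') * M - (p' * q - p * q') * M') :
    a * ((H' * q - 2 * H * q') / q ^ 3 / ((p' * q - p * q') / q ^ 2) -
      H / q ^ 2 * (((p'' * q - p * q'') * q - 2 * (p' * q - p * q') * q') / q ^ 3) /
        ((p' * q - p * q') / q ^ 2) ^ 2) + b * (H / q ^ 2 / ((p' * q - p * q') / q ^ 2)) =
    -(a / (y - p / q) ^ 2 + (b / ((p' * q - p * q') / q ^ 2) -
      a * (((p'' * q - p * q'') * q - 2 * (p' * q - p * q') * q') / q ^ 3) /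
        ((p' * q - p * q') / q ^ 2) ^ 2) / (y - p / q)) + (a * R2 - b * R1) := by
  set D := p - y * q with hD
  set W := p' * q - p * q' with hW
  have e1 : y - p / q = -(D / q) := by
    rw [hD]; field_simp; ring
  have eH : H = (q ^ 3 - W * (D * R1)) / D := by
    rw [eq_div_iff hP, mul_comm, hH, hM]
  have eH' : H' = (3 * q ^ 2 * q' - (p'' * q - p * q'') * (D * R1) -
      W * ((p' - y * q') * R1 - D * R2) - (p' - y * q') * ((q ^ 3 - W * (D * R1)) / D)) / D := by
    rw [eq_div_iff hP, ← eH, ← hM, ← hM']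
    linear_combination hH'
  have eD' : p' - y * q' = (W + D * q') / q := by
    rw [hW, hD]; field_simp; ring
  rw [e1, eH', eH, eD']
  generalize (p'' * q - p * q'') = V
  clear_value D W
  field_simp
  ring

theorem task : StPF := by
  classical
  rintro d P Q Z a b ⟨hd2, ⟨u, v, huv⟩, hmax⟩ hcyc ha hb hL y hy ⟨hdeg, hgen⟩
  set F := P - C y * Q with hF
  have hF0 : F ≠ 0 := by
    intro h
    rw [h, natDegree_zero] at hdeg
    omega
  have hPd : P.natDegree ≤ d := by rw [← hmax]; exact le_max_left _ _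
  have hQd : Q.natDegree ≤ d := by rw [← hmax]; exact le_max_right _ _
  have hpre : ∀ ζ : ℂ, ζ ∈ pre P Q y ↔ F.eval ζ = 0 := by
    intro ζ
    unfold pre
    rw [Multiset.mem_toFinset, mem_roots hF0]
    rfl
  have hFe : ∀ ζ : ℂ, F.eval ζ = P.eval ζ - y * Q.eval ζ := by
    intro ζ; rw [hF]; simp
  have hF'e : ∀ ζ : ℂ, (derivative F).eval ζ =
      (derivative P).eval ζ - y * (derivative Q).eval ζ := by
    intro ζ; rw [hF]; simp
  have hwe : ∀ ζ : ℂ, (wn P Q).eval ζ =
      (derivative P).eval ζ * Q.eval ζ - P.eval ζ * (derivative Q).eval ζ := by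
    intro ζ; unfold wn; simp
  have hQζ : ∀ ζ ∈ pre P Q y, Q.eval ζ ≠ 0 := by
    intro ζ hζ hQ0
    have h1 := (hpre ζ).1 hζ
    rw [hFe, hQ0, mul_zero, sub_zero] at h1
    have h2 := congrArg (fun p => Polynomial.eval ζ p) huv
    simp [h1, hQ0] at h2
  have hwζ : ∀ ζ ∈ pre P Q y, (wn P Q).eval ζ = Q.eval ζ * (derivative F).eval ζ := by
    intro ζ hζ
    have h1 := (hpre ζ).1 hζ
    rw [hFe] at h1
    rw [hwe, hF'e]
    linear_combination (-(derivative Q).eval ζ) * h1
  have hF'ζ : ∀ ζ ∈ pre P Q y, (derivative F).eval ζ ≠ 0 := by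
    intro ζ hζ h0
    apply hgen ζ hζ
    rw [hwζ ζ hζ, h0, mul_zero]
  have hnd : F.roots.Nodup := by
    rw [Multiset.nodup_iff_count_le_one]
    intro ζ
    rw [count_roots]
    by_contra hc
    push Not at hc
    have h2 := (one_lt_rootMultiplicity_iff_isRoot hF0).mp hc
    exact hF'ζ ζ ((hpre ζ).2 h2.1) h2.2
  set S := pre P Q y with hS
  set M : ℂ[X] := ∑ ζ ∈ S, C ((d1 P Q ζ ^ 2)⁻¹) * (F /ₘ (X - C ζ)) with hM
  have hMdeg : M.natDegree ≤ d - 1 := by
    rw [hM]
    apply natDegree_sum_le_of_forall_le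
    intro ζ hζ
    refine le_trans (natDegree_C_mul_le _ _) ?_
    rw [natDegree_divByMonic _ (monic_X_sub_C ζ), natDegree_X_sub_C, hdeg]
  have hdiv : ∀ ζ ∈ S, (X - C ζ) * (F /ₘ (X - C ζ)) = F := by
    intro ζ hζ
    exact mul_divByMonic_eq_iff_isRoot.mpr ((hpre ζ).1 hζ)
  have hwdeg : (wn P Q).natDegree ≤ 2 * d := by
    unfold wn
    refine (natDegree_sub_le _ _).trans (max_le ?_ ?_)
    · refine natDegree_mul_le.trans ?_
      have := natDegree_derivative_le P
      omega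
    · refine natDegree_mul_le.trans ?_
      have := natDegree_derivative_le Q
      omega
  have hMroot : ∀ ζ : ℂ, F.eval ζ = 0 → (Q ^ 3 - wn P Q * M).eval ζ = 0 := by
    intro ζ hζ0
    have hζ : ζ ∈ S := (hpre ζ).2 hζ0
    have hMζ : M.eval ζ = (d1 P Q ζ ^ 2)⁻¹ * (derivative F).eval ζ := by
      rw [hM, eval_finsetSum, Finset.sum_eq_single ζ]
      · rw [eval_mul, eval_C]
        congr 1
        have h1 := congrArg (fun p => Polynomial.eval ζ (derivative p)) (hdiv ζ hζ)
        simp only [derivative_mul, derivative_sub, derivative_X, derivative_C, sub_zero, one_mul,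
          eval_add, eval_mul, eval_sub, eval_X, eval_C, sub_self, zero_mul, add_zero] at h1
        exact h1
      · intro ξ hξ hne
        rw [eval_mul]
        have h1 := congrArg (fun p => Polynomial.eval ζ p) (hdiv ξ hξ)
        simp only [eval_mul, eval_sub, eval_X, eval_C] at h1
        rw [hζ0] at h1
        rcases mul_eq_zero.1 h1 with h2 | h2
        · exact absurd (sub_eq_zero.1 h2).symm hne
        · rw [h2, mul_zero]
      · intro h; exact absurd hζ h
    rw [eval_sub, eval_mul, eval_pow, hMζ, d1, hwζ ζ hζ]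
    have h1 := hQζ ζ hζ
    have h2 := hF'ζ ζ hζ
    field_simp
    ring
  obtain ⟨H, hH⟩ := dvd_of_roots hF0 hnd hMroot
  have hHdeg : H.natDegree ≤ 2 * d := by
    by_cases h0 : H = 0
    · rw [h0]; simp
    · have h3 := Polynomial.natDegree_mul hF0 h0
      rw [← hH, hdeg] at h3
      have h4 : (Q ^ 3 - wn P Q * M).natDegree ≤ 3 * d := by
        refine (Polynomial.natDegree_sub_le _ _).trans (max_le ?_ ?_)
        · refine natDegree_pow_le.trans ?_
          omega
        · refine Polynomial.natDegree_mul_le.trans ?_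
          omega
      omega
  -- values at the points of Z
  have hQz : ∀ z ∈ Z, Q.eval z ≠ 0 := fun z hz => (hcyc.1 z hz).1
  have hFz : ∀ z ∈ Z, P.eval z - y * Q.eval z ≠ 0 := by
    intro z hz h0
    apply hy
    have h1 := (hcyc.1 z hz).2.2
    have h2 : fr P Q z = y := by
      unfold fr
      rw [div_eq_iff (hQz z hz)]
      exact sub_eq_zero.1 h0
    rwa [h2] at h1
  have hzζ : ∀ z ∈ Z, ∀ ζ ∈ S, z - ζ ≠ 0 := by
    intro z hz ζ hζ h0
    apply hFz z hz
    rw [← hFe, sub_eq_zero.1 h0]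
    exact (hpre ζ).1 hζ
  have hq1 : ∀ z ∈ Z, ∀ ζ ∈ S, (F /ₘ (X - C ζ)).eval z = F.eval z / (z - ζ) := by
    intro z hz ζ hζ
    have h1 := congrArg (fun p => Polynomial.eval z p) (hdiv ζ hζ)
    simp only [eval_mul, eval_sub, eval_X, eval_C] at h1
    rw [eq_div_iff (hzζ z hz ζ hζ), mul_comm]
    exact h1
  have hq2 : ∀ z ∈ Z, ∀ ζ ∈ S, (derivative (F /ₘ (X - C ζ))).eval z =
      ((derivative F).eval z - F.eval z / (z - ζ)) / (z - ζ) := by
    intro z hz ζ hζ
    have h1 := congrArg (fun p => Polynomial.eval z (derivative p)) (hdiv ζ hζ)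
    simp only [derivative_mul, derivative_sub, derivative_X, derivative_C, sub_zero, one_mul,
      eval_add, eval_mul, eval_sub, eval_X, eval_C] at h1
    rw [eq_div_iff (hzζ z hz ζ hζ), ← hq1 z hz ζ hζ]
    linear_combination h1
  have hMz : ∀ z ∈ Z, M.eval z = (P.eval z - y * Q.eval z) *
      ∑ ζ ∈ S, (d1 P Q ζ ^ 2)⁻¹ * (z - ζ)⁻¹ := by
    intro z hz
    rw [hM, eval_finsetSum, Finset.mul_sum]
    apply Finset.sum_congr rfl
    intro ζ hζ
    rw [eval_mul, eval_C, hq1 z hz ζ hζ, hFe, div_eq_mul_inv]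
    ring
  have hM'z : ∀ z ∈ Z, (derivative M).eval z =
      ((derivative P).eval z - y * (derivative Q).eval z) *
        (∑ ζ ∈ S, (d1 P Q ζ ^ 2)⁻¹ * (z - ζ)⁻¹) -
      (P.eval z - y * Q.eval z) * ∑ ζ ∈ S, (d1 P Q ζ ^ 2)⁻¹ * ((z - ζ) ^ 2)⁻¹ := by
    intro z hz
    rw [hM, derivative_sum, eval_finsetSum, Finset.mul_sum, Finset.mul_sum,
      ← Finset.sum_sub_distrib]
    apply Finset.sum_congr rfl
    intro ζ hζ
    rw [derivative_mul, derivative_C, zero_mul, zero_add, eval_mul, eval_C, hq2 z hz ζ hζ, hFe,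
      hF'e]
    have h2 := hzζ z hz ζ hζ
    generalize (d1 P Q ζ ^ 2)⁻¹ = c
    field_simp
  have key : ∀ z ∈ Z, (a z * (hd Q H z / d1 P Q z - hv Q H z * d2 P Q z / d1 P Q z ^ 2) +
        b z * (hv Q H z / d1 P Q z)) =
      -(a (fr P Q z) / (y - fr P Q z) ^ 2 + b (fr P Q z) / (y - fr P Q z)) +
      ∑ ζ ∈ S, (a z / (ζ - z) ^ 2 + b z / (ζ - z)) / d1 P Q ζ ^ 2 := by
    intro z hz
    have hR : ∑ ζ ∈ S, (a z / (ζ - z) ^ 2 + b z / (ζ - z)) / d1 P Q ζ ^ 2 =
        a z * (∑ ζ ∈ S, (d1 P Q ζ ^ 2)⁻¹ * ((z - ζ) ^ 2)⁻¹) -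
        b z * (∑ ζ ∈ S, (d1 P Q ζ ^ 2)⁻¹ * (z - ζ)⁻¹) := by
      rw [Finset.mul_sum, Finset.mul_sum, ← Finset.sum_sub_distrib]
      apply Finset.sum_congr rfl
      intro ζ hζ
      have h6 : (ζ - z) ^ 2 = (z - ζ) ^ 2 := by ring
      have h7 : (ζ - z)⁻¹ = - (z - ζ)⁻¹ := by
        rw [← inv_neg, neg_sub]
      rw [h6, div_eq_mul_inv (b z), h7, div_eq_mul_inv, div_eq_mul_inv]
      ring
    have hw := (hcyc.1 z hz).2.1
    rw [hwe] at hw
    have e1 := congrArg (fun p => Polynomial.eval z p) hH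
    simp only [eval_mul, eval_sub, eval_pow] at e1
    rw [hFe, hwe] at e1
    have e2 := congrArg (fun p => Polynomial.eval z (derivative p)) hH
    simp only [derivative_mul, derivative_sub, derivative_pow, eval_add, eval_mul, eval_sub,
      eval_pow, eval_C] at e2
    have hdw : (derivative (wn P Q)).eval z =
        (derivative (derivative P)).eval z * Q.eval z -
          P.eval z * (derivative (derivative Q)).eval z := by
      unfold wn
      simp only [derivative_mul, derivative_sub, eval_add, eval_mul, eval_sub]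
      ring
    rw [hFe, hF'e, hwe, hdw] at e2
    rw [hR, ha z hz, hb z hz]
    unfold hd hv d2 d1 fr
    rw [hdw, hwe]
    refine alg (Q.eval z) ((derivative Q).eval z) ((derivative (derivative Q)).eval z)
      (P.eval z) ((derivative P).eval z) ((derivative (derivative P)).eval z) y _ _ _ _
      (M.eval z) ((derivative M).eval z) _ _ (hQz z hz) hw (hFz z hz) (hMz z hz) (hM'z z hz)
      e1.symm ?_
    rw [← e2]
    push_cast
    ring
  have hLh := hL H hHdeg
  rw [Finset.sum_congr rfl key, Finset.sum_add_distrib, Finset.sum_neg_distrib,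
    neg_add_eq_zero] at hLh
  have himg : Z.image (fun z => fr P Q z) = Z := by
    apply Finset.eq_of_subset_of_card_le
    · intro y hy
      obtain ⟨z, hz, rfl⟩ := Finset.mem_image.mp hy
      exact (hcyc.1 z hz).2.2
    · rw [Finset.card_image_of_injOn]
      intro z hz z' hz' hzz
      exact hcyc.2 z hz z' hz' hzz
  have hperm : ∑ z ∈ Z, (a (fr P Q z) / (y - fr P Q z) ^ 2 + b (fr P Q z) / (y - fr P Q z)) =
      qd Z a b y := by
    rw [qd]
    conv_rhs => rw [← himg]
    rw [Finset.sum_image]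
    intro z hz z' hz' hzz
    exact hcyc.2 z hz z' hz' hzz
  rw [hperm, Finset.sum_comm] at hLh
  rw [hLh]
  apply Finset.sum_congr rfl
  intro ζ hζ
  rw [qd, Finset.sum_div]

end Pool.Agent.W29.RQPF

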