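import Pool.Agent.W229.V.Stmts

/-!
# VOJ-B: points of bounded height in `P^N(K)`, uniformly in `K` of degree `n`
-/

set_option autoImplicit false

namespace Pool.Agent.W29.VojB

open Module Height NumberField
open scoped LinearAlgebra.Projectivization

section Sep

variable {K : Type} [Field K] [NumberField K] {N : ℕ}

/-- the supremum of the values of a nonzero tuple at a finite place is `1` for almost all places -/
theorem finite_support {x : Fin (N + 1) → K} (hx : x ≠ 0) :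
    Function.HasFiniteMulSupport (fun v : FinitePlace K => ⨆ i, v (x i)) := by
  classical
  obtain ⟨i₀, hi₀⟩ := Function.ne_iff.1 hx
  have hfin : (⋃ i : {i : Fin (N + 1) // x i ≠ 0},
      Function.mulSupport (fun v : FinitePlace K => v (x i))).Finite :=
    Set.finite_iUnion fun i => FinitePlace.hasFiniteMulSupport i.2
  refine hfin.subset fun v hv => ?_
  by_contra hcon
  simp only [Set.mem_iUnion, Function.mem_mulSupport, not_exists, not_not] at hcon
  apply hv
  show ⨆ i, v (x i) = 1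
  apply le_antisymm
  · apply ciSup_le
    intro i
    by_cases hi : x i = 0
    · rw [hi, map_zero]; exact zero_le_one
    · exact (hcon ⟨i, hi⟩).le
  · have h1 := hcon ⟨i₀, hi₀⟩
    calc (1 : ℝ) = v (x i₀) := h1.symm
      _ ≤ ⨆ i, v (x i) := Finite.le_ciSup_of_le i₀ le_rfl

theorem sup_nonneg (v : FinitePlace K) (x : Fin (N + 1) → K) : 0 ≤ ⨆ i, v (x i) :=
  (apply_nonneg v (x 0)).trans (Finite.le_ciSup_of_le 0 le_rfl)

theorem sup_nonneg' (v : InfinitePlace K) (x : Fin (N + 1) → K) : 0 ≤ ⨆ i, v (x i) :=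
  (apply_nonneg v (x 0)).trans (Finite.le_ciSup_of_le 0 le_rfl)

/-- Separation: two points of small height with close coordinates have vanishing minors. -/
theorem sep {x y : Fin (N + 1) → K} (hx : x ≠ 0) (hy : y ≠ 0) {η : ℝ} (hη : 0 ≤ η)
    (i j : Fin (N + 1))
    (h : ∀ v : InfinitePlace K, v (x i * y j - x j * y i) ≤
      η * ((⨆ i, v (x i)) * ⨆ i, v (y i)))
    (hZ : η ^ finrank ℚ K * (mulHeight x * mulHeight y) < 1) : x i * y j - x j * y i = 0 := by
  by_contra hw
  set w := x i * y j - x j * y i with hwdef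
  have hprod := prod_abs_eq_one (K := K) hw
  -- finite places
  have hfin : ∏ᶠ v : FinitePlace K, v w ≤
      (∏ᶠ v : FinitePlace K, ⨆ i, v (x i)) * ∏ᶠ v : FinitePlace K, ⨆ i, v (y i) := by
    rw [← finprod_mul_distrib (finite_support hx) (finite_support hy)]
    refine finprod_le_finprod (FinitePlace.hasFiniteMulSupport hw) (fun v => apply_nonneg v _)
      ((finite_support hx).mul (finite_support hy)) fun v => ?_
    have h1 : v (x i * y j) ≤ (⨆ i, v (x i)) * ⨆ i, v (y i) := by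
      rw [map_mul]
      exact mul_le_mul (Finite.le_ciSup_of_le i le_rfl) (Finite.le_ciSup_of_le j le_rfl)
        (apply_nonneg _ _) (sup_nonneg v x)
    have h2 : v (-(x j * y i)) ≤ (⨆ i, v (x i)) * ⨆ i, v (y i) := by
      rw [map_neg_eq_map, map_mul]
      exact mul_le_mul (Finite.le_ciSup_of_le j le_rfl) (Finite.le_ciSup_of_le i le_rfl)
        (apply_nonneg _ _) (sup_nonneg v x)
    have h3 := FinitePlace.add_le v (x i * y j) (-(x j * y i))
    rw [← sub_eq_add_neg] at h3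
    exact h3.trans (max_le h1 h2)
  have hinf : ∏ v : InfinitePlace K, v w ^ v.mult ≤
      η ^ finrank ℚ K * ((∏ v : InfinitePlace K, (⨆ i, v (x i)) ^ v.mult) *
        ∏ v : InfinitePlace K, (⨆ i, v (y i)) ^ v.mult) := by
    rw [← InfinitePlace.sum_mult_eq, ← Finset.prod_pow_eq_pow_sum, ← Finset.prod_mul_distrib,
      ← Finset.prod_mul_distrib]
    refine Finset.prod_le_prod (fun v _ => pow_nonneg (apply_nonneg v _) _) fun v _ => ?_
    rw [← mul_pow, ← mul_pow]
    exact pow_le_pow_left₀ (apply_nonneg v _) (h v) _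
  have hfx := finprod_nonneg (fun v : FinitePlace K => sup_nonneg v x)
  have hfy := finprod_nonneg (fun v : FinitePlace K => sup_nonneg v y)
  have hf0 := finprod_nonneg (fun v : FinitePlace K => apply_nonneg v w)
  have hix : 0 ≤ ∏ v : InfinitePlace K, (⨆ i, v (x i)) ^ v.mult :=
    Finset.prod_nonneg fun v _ => pow_nonneg (sup_nonneg' v x) _
  have hiy : 0 ≤ ∏ v : InfinitePlace K, (⨆ i, v (y i)) ^ v.mult :=
    Finset.prod_nonneg fun v _ => pow_nonneg (sup_nonneg' v y) _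
  have hfinal : (1 : ℝ) ≤ η ^ finrank ℚ K * (mulHeight x * mulHeight y) := by
    rw [NumberField.mulHeight_eq hx, NumberField.mulHeight_eq hy]
    calc (1 : ℝ) = (∏ v : InfinitePlace K, v w ^ v.mult) * ∏ᶠ v : FinitePlace K, v w := hprod.symm
      _ ≤ (η ^ finrank ℚ K * ((∏ v : InfinitePlace K, (⨆ i, v (x i)) ^ v.mult) *
        ∏ v : InfinitePlace K, (⨆ i, v (y i)) ^ v.mult)) *
        ((∏ᶠ v : FinitePlace K, ⨆ i, v (x i)) * ∏ᶠ v : FinitePlace K, ⨆ i, v (y i)) :=
        mul_le_mul hinf hfin hf0 (by positivity)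
      _ = _ := by ring
  linarith

end Sep

section Count

variable {K : Type} [Field K] [NumberField K] {N : ℕ}

/-- index of a coordinate with maximal absolute value -/
theorem exists_max (x : Fin (N + 1) → K) (σ : K →+* ℂ) :
    ∃ i, ∀ j, ‖σ (x j)‖ ≤ ‖σ (x i)‖ := by
  obtain ⟨i, hi⟩ := Finite.exists_max (fun j => ‖σ (x j)‖)
  exact ⟨i, hi⟩

/-- the index -/
noncomputable def idx (x : Fin (N + 1) → K) (σ : K →+* ℂ) : Fin (N + 1) :=
  (exists_max x σ).choose

theorem idx_spec (x : Fin (N + 1) → K) (σ : K →+* ℂ) (j : Fin (N + 1)) :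
    ‖σ (x j)‖ ≤ ‖σ (x (idx x σ))‖ := (exists_max x σ).choose_spec j

/-- normalised coordinates -/
noncomputable def nc (x : Fin (N + 1) → K) (σ : K →+* ℂ) (j : Fin (N + 1)) : ℂ :=
  σ (x j) / σ (x (idx x σ))

theorem idx_ne {x : Fin (N + 1) → K} (hx : x ≠ 0) (σ : K →+* ℂ) : σ (x (idx x σ)) ≠ 0 := by
  obtain ⟨i, hi⟩ := Function.ne_iff.1 hx
  intro h0
  have := idx_spec x σ i
  rw [h0, norm_zero, norm_le_zero_iff, map_eq_zero] at this
  exact hi this

theorem nc_norm (x : Fin (N + 1) → K) (σ : K →+* ℂ) (j : Fin (N + 1)) : ‖nc x σ j‖ ≤ 1 := by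
  rw [nc, norm_div]
  exact div_le_one_of_le₀ (idx_spec x σ j) (norm_nonneg _)

theorem nc_mul {x : Fin (N + 1) → K} (hx : x ≠ 0) (σ : K →+* ℂ) (j : Fin (N + 1)) :
    σ (x j) = nc x σ j * σ (x (idx x σ)) := by
  rw [nc, div_mul_cancel₀ _ (idx_ne hx σ)]

theorem sup_eq (x : Fin (N + 1) → K) (v : InfinitePlace K) :
    ⨆ i, v (x i) = ‖v.embedding (x (idx x v.embedding))‖ := by
  apply le_antisymm
  · apply ciSup_le
    intro i
    rw [← InfinitePlace.norm_embedding_eq]
    exact idx_spec x v.embedding i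
  · rw [InfinitePlace.norm_embedding_eq]
    exact Finite.le_ciSup_of_le (f := fun i => v (x i)) _ le_rfl

/-- the label of a tuple -/
noncomputable def label (q : ℕ) (x : Fin (N + 1) → K) :
    (K →+* ℂ) → Fin (N + 1) × (Fin (N + 1) → ℤ × ℤ) := fun σ =>
  (idx x σ, fun j => (⌊(q : ℝ) * (nc x σ j).re⌋, ⌊(q : ℝ) * (nc x σ j).im⌋))

theorem floor_mem {q : ℕ} {t : ℝ} (ht : |t| ≤ 1) : ⌊(q : ℝ) * t⌋ ∈ Finset.Icc (-(q : ℤ)) q := by
  rw [abs_le] at ht
  have hq : (0 : ℝ) ≤ q := Nat.cast_nonneg q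
  rw [Finset.mem_Icc]
  constructor
  · rw [Int.le_floor]; push_cast; nlinarith
  · have : ((⌊(q : ℝ) * t⌋ : ℤ) : ℝ) ≤ (q : ℤ) := (Int.floor_le _).trans (by push_cast; nlinarith)
    exact_mod_cast this

open Classical in
/-- the finite set of labels -/
noncomputable def labels (K : Type) [Field K] [NumberField K] (N q : ℕ) :
    Finset ((K →+* ℂ) → Fin (N + 1) × (Fin (N + 1) → ℤ × ℤ)) :=
  Fintype.piFinset fun _ => Finset.univ ×ˢ
    Fintype.piFinset fun _ => Finset.Icc (-(q : ℤ)) q ×ˢ Finset.Icc (-(q : ℤ)) q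

theorem label_mem (q : ℕ) (x : Fin (N + 1) → K) : label q x ∈ labels K N q := by
  classical
  unfold labels
  rw [Fintype.mem_piFinset]
  intro σ
  rw [Finset.mem_product]
  refine ⟨Finset.mem_univ _, ?_⟩
  rw [Fintype.mem_piFinset]
  intro j
  rw [Finset.mem_product]
  exact ⟨floor_mem ((Complex.abs_re_le_norm _).trans (nc_norm x σ j)),
    floor_mem ((Complex.abs_im_le_norm _).trans (nc_norm x σ j))⟩

theorem card_labels (N q : ℕ) : (labels K N q).card =
    ((N + 1) * ((2 * q + 1) ^ 2) ^ (N + 1)) ^ finrank ℚ K := by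
  have h1 : (Finset.Icc (-(q : ℤ)) q).card = 2 * q + 1 := by
    rw [Int.card_Icc]; omega
  classical
  unfold labels
  rw [Fintype.card_piFinset]
  simp only [Finset.card_product, Fintype.card_piFinset, h1, Finset.prod_const, Finset.card_univ,
    Fintype.card_fin, Embeddings.card]
  congr 3
  rw [sq]

theorem close_of_floor {q : ℕ} (hq : 0 < q) {z z' : ℂ}
    (h1 : ⌊(q : ℝ) * z.re⌋ = ⌊(q : ℝ) * z'.re⌋) (h2 : ⌊(q : ℝ) * z.im⌋ = ⌊(q : ℝ) * z'.im⌋) :
    ‖z - z'‖ ≤ 2 / q := by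
  have hq' : (0 : ℝ) < q := Nat.cast_pos.2 hq
  have e1 := Int.abs_sub_lt_one_of_floor_eq_floor h1
  have e2 := Int.abs_sub_lt_one_of_floor_eq_floor h2
  rw [← mul_sub, abs_mul, abs_of_pos hq'] at e1 e2
  have h3 := Complex.norm_le_abs_re_add_abs_im (z - z')
  rw [Complex.sub_re, Complex.sub_im] at h3
  rw [le_div_iff₀ hq']
  nlinarith

/-- Points of small height with the same label are equal. -/
theorem eq_of_label {q : ℕ} (hq : 0 < q) {Z : ℝ} (hZ0 : 0 ≤ Z)
    (hqZ : (4 / (q : ℝ)) ^ finrank ℚ K * (Z * Z) < 1)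
    {P Q : ℙ K (Fin (N + 1) → K)} (hP : mulHeight P.rep ≤ Z) (hQ : mulHeight Q.rep ≤ Z)
    (h : label q P.rep = label q Q.rep) : P = Q := by
  have hq' : (0 : ℝ) < q := Nat.cast_pos.2 hq
  have hx := P.rep_nonzero
  have hy := Q.rep_nonzero
  set x := P.rep with hxdef
  set y := Q.rep with hydef
  have hminor : ∀ i j, x i * y j - x j * y i = 0 := by
    intro i j
    refine sep hx hy (η := 4 / q) (by positivity) i j (fun v => ?_) ?_
    · set σ := v.embedding with hσ
      have hσl := congrFun h σ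
      have hidx : idx x σ = idx y σ := congrArg Prod.fst hσl
      have hfl : ∀ l, ‖nc x σ l - nc y σ l‖ ≤ 2 / q := fun l => by
        have h1 := congrFun (congrArg Prod.snd hσl) l
        exact close_of_floor hq (congrArg Prod.fst h1) (congrArg Prod.snd h1)
      rw [sup_eq x v, sup_eq y v, ← InfinitePlace.norm_embedding_eq, ← hσ, map_sub, map_mul,
        map_mul, nc_mul hx σ i, nc_mul hx σ j, nc_mul hy σ i, nc_mul hy σ j]
      set A := σ (x (idx x σ))
      set B := σ (y (idx y σ))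
      have e : nc x σ i * A * (nc y σ j * B) - nc x σ j * A * (nc y σ i * B) =
          (nc x σ i * (nc y σ j - nc x σ j) + nc x σ j * (nc x σ i - nc y σ i)) * (A * B) := by
        ring
      rw [e, norm_mul, norm_mul A B]
      refine mul_le_mul_of_nonneg_right ?_ (by positivity)
      refine (norm_add_le _ _).trans ?_
      rw [norm_mul, norm_mul]
      have e1 : ‖nc x σ i‖ * ‖nc y σ j - nc x σ j‖ ≤ 1 * (2 / q) :=
        mul_le_mul (nc_norm x σ i) (by rw [norm_sub_rev]; exact hfl j) (norm_nonneg _) zero_le_one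
      have e2 : ‖nc x σ j‖ * ‖nc x σ i - nc y σ i‖ ≤ 1 * (2 / q) :=
        mul_le_mul (nc_norm x σ j) (hfl i) (norm_nonneg _) zero_le_one
      calc _ ≤ 1 * (2 / (q : ℝ)) + 1 * (2 / q) := add_le_add e1 e2
        _ = 4 / q := by ring
    · refine lt_of_le_of_lt ?_ hqZ
      refine mul_le_mul_of_nonneg_left ?_ (by positivity)
      exact mul_le_mul hP hQ (mulHeight_nonneg' _) hZ0
  rw [← P.mk_rep, ← Q.mk_rep, Projectivization.mk_eq_mk_iff']
  obtain ⟨j, hj⟩ := Function.ne_iff.1 hy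
  refine ⟨x j / y j, ?_⟩
  ext i
  have hj' : y j ≠ 0 := hj
  rw [Pi.smul_apply, smul_eq_mul, ← hxdef, ← hydef]
  field_simp
  linear_combination -hminor i j
where
  mulHeight_nonneg' (x : Fin (N + 1) → K) : 0 ≤ mulHeight x := (mulHeight_pos x).le

end Count

/-- TaskB -/
theorem taskB : Pool.Agent.W229.V.TaskB := by
  intro n N
  refine ⟨(((N : ℝ) + 1) * (11 ^ 2) ^ (N + 1)) ^ n, ?_⟩
  intro K _ _ hK Z hZ
  have hn : 0 < n := hK ▸ finrank_pos
  have hn' : (0 : ℝ) < n := Nat.cast_pos.2 hn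
  have hZ0 : 0 < Z := lt_of_lt_of_le one_pos hZ
  set A : ℝ := Z ^ (2 / (n : ℝ)) with hA
  have hA1 : 1 ≤ A := Real.one_le_rpow hZ (by positivity)
  have hAn : A ^ n = Z ^ 2 := by
    rw [hA, ← Real.rpow_natCast, ← Real.rpow_mul hZ0.le, div_mul_cancel₀ _ hn'.ne']
    norm_num
  set q : ℕ := ⌊4 * A⌋₊ + 1 with hq
  have hqpos : 0 < q := Nat.succ_pos _
  have hq1 : 4 * A < q := by rw [hq]; push_cast; exact Nat.lt_floor_add_one _
  have hq2 : (q : ℝ) ≤ 4 * A + 1 := by
    rw [hq]; push_cast; linarith [Nat.floor_le (show 0 ≤ 4 * A by positivity)]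
  have hq' : (0 : ℝ) < q := Nat.cast_pos.2 hqpos
  have hqZ : (4 / (q : ℝ)) ^ finrank ℚ K * (Z * Z) < 1 := by
    rw [hK, div_pow, div_mul_eq_mul_div, div_lt_one (by positivity), ← sq, ← hAn, ← mul_pow]
    exact pow_lt_pow_left₀ hq1 (by positivity) hn.ne'
  have hinj : Set.InjOn (fun P : ℙ K (Fin (N + 1) → K) => label q P.rep)
      {P | mulHeight P.rep ≤ Z} := fun P hP Q hQ h => eq_of_label hqpos hZ0.le hqZ hP hQ h
  have hmaps : Set.MapsTo (fun P : ℙ K (Fin (N + 1) → K) => label q P.rep)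
      {P | mulHeight P.rep ≤ Z} (labels K N q : Set _) := fun P _ => label_mem q P.rep
  refine ⟨Set.Finite.of_injOn hmaps hinj (Finset.finite_toSet _), ?_⟩
  have hcard : Set.ncard {P : ℙ K (Fin (N + 1) → K) | mulHeight P.rep ≤ Z} ≤
      (labels K N q).card := by
    rw [← Set.ncard_coe_finset]
    exact Set.ncard_le_ncard_of_injOn _ hmaps hinj (Finset.finite_toSet _)
  rw [card_labels, hK] at hcard
  have hcard' : (Set.ncard {P : ℙ K (Fin (N + 1) → K) | mulHeight P.rep ≤ Z} : ℝ) ≤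
      (((N : ℝ) + 1) * ((2 * q + 1) ^ 2) ^ (N + 1)) ^ n := by exact_mod_cast hcard
  refine hcard'.trans ?_
  have h11 : (2 * q + 1 : ℝ) ≤ 11 * A := by linarith
  calc (((N : ℝ) + 1) * ((2 * q + 1) ^ 2) ^ (N + 1)) ^ n
      ≤ (((N : ℝ) + 1) * ((11 * A) ^ 2) ^ (N + 1)) ^ n := by
        gcongr
    _ = (((N : ℝ) + 1) * (11 ^ 2) ^ (N + 1)) ^ n * (A ^ n) ^ (2 * (N + 1)) := by
        have e1 : ((11 * A) ^ 2) ^ (N + 1) = (11 ^ 2) ^ (N + 1) * A ^ (2 * (N + 1)) := by
          rw [mul_pow, mul_pow, ← pow_mul A]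
        rw [e1, ← mul_assoc, mul_pow, ← pow_mul A, ← pow_mul A, mul_comm n]
    _ = _ := by
        have e2 : (Z ^ 2) ^ (2 * (N + 1)) = Z ^ (4 * ((N : ℝ) + 1)) := by
          rw [← pow_mul, ← Real.rpow_natCast]
          congr 1
          push_cast
          ring
        rw [hAn, e2]

end Pool.Agent.W29.VojB
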