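import Pool.Agent.W257.CStm2

/-!
ESG-D3 (helper257): the degree of a factor of the resolvent is at least the degree of the field
generated by the roots.
-/

open Polynomial Finset

namespace Pool.Agent.W29.EsgCard

open Pool.Agent.H322R2 Pool.Agent.W257

theorem main : S_card := by
  classical
  intro m g F₁ β δ ω hg hgm hsplit hβ hF₁ hTD hperm hev
  -- the rational polynomial
  set p : ℚ[X] := g.map (Int.castRingHom ℚ) with hp
  have hpm : p.Monic := hg.map _
  have hp0 : p ≠ 0 := hpm.ne_zero
  have hpR : p.map (algebraMap ℚ ℝ) = ∏ i, (X - C (β i)) := by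
    rw [hp, Polynomial.map_map, ← hsplit]
    congr 1
  have hroot : ∀ x : ℝ, aeval x p = 0 ↔ ∃ i, β i = x := by
    intro x
    rw [aeval_def, ← eval_map, hpR, eval_prod, Finset.prod_eq_zero_iff]
    constructor
    · rintro ⟨i, _, hi⟩
      rw [eval_sub, eval_X, eval_C, sub_eq_zero] at hi
      exact ⟨i, hi.symm⟩
    · rintro ⟨i, hi⟩
      refine ⟨i, mem_univ _, ?_⟩
      rw [eval_sub, eval_X, eval_C, hi, sub_self]
  have hrs : p.rootSet ℝ = Set.range β := by
    ext x
    rw [mem_rootSet, hroot]
    constructor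
    · rintro ⟨_, i, hi⟩; exact ⟨i, hi⟩
    · rintro ⟨i, hi⟩; exact ⟨hp0, i, hi⟩
  have hSp : (p.map (algebraMap ℚ ℝ)).Splits := by
    rw [hpR]
    exact Splits.prod fun i _ => Splits.X_sub_C _
  set K := IntermediateField.adjoin ℚ (Set.range β) with hK
  have hSF : p.IsSplittingField ℚ K := by
    have h := IntermediateField.adjoin_rootSet_isSplittingField hSp
    rw [hrs] at h
    exact h
  have hfin : FiniteDimensional ℚ K := IsSplittingField.finiteDimensional K p
  have hnorm : Normal ℚ K := Normal.of_isSplittingField p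
  have hgal : IsGalois ℚ K := ⟨⟩
  rw [← IsGalois.card_aut_eq_finrank ℚ K]
  -- the roots in `K`
  set b : Fin m → K := fun i => ⟨β i, IntermediateField.subset_adjoin _ _ ⟨i, rfl⟩⟩ with hb
  have hbv : ∀ i, (algebraMap K ℝ) (b i) = β i := fun i => rfl
  -- the permutation
  have hex : ∀ (s : K ≃ₐ[ℚ] K) (i : Fin m), ∃ j, β j = (algebraMap K ℝ) (s (b i)) := by
    intro s i
    rw [← hroot]
    have h1 : aeval (b i) p = 0 := by
      have h2 : (algebraMap K ℝ) (aeval (b i) p) = 0 := by
        rw [← aeval_algebraMap_apply, hbv, hroot]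
        exact ⟨i, rfl⟩
      exact (map_eq_zero_iff _ (algebraMap K ℝ).injective).1 h2
    rw [aeval_algebraMap_apply, aeval_algHom_apply, h1, map_zero, map_zero]
  choose π hπ using hex
  have hπinj : ∀ s, Function.Injective (π s) := by
    intro s i j hij
    have h1 : (algebraMap K ℝ) (s (b i)) = (algebraMap K ℝ) (s (b j)) := by
      rw [← hπ, ← hπ, hij]
    have h2 := (algebraMap K ℝ).injective h1
    have h3 := s.injective h2
    apply hβ
    rw [← hbv i, ← hbv j, h3]
  -- the power series
  set wK : PowerSeries K := ∑ i, PowerSeries.C (b i) * PowerSeries.map (Int.castRingHom K) (ω i)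
    with hwK
  set ws : (K ≃ₐ[ℚ] K) → PowerSeries K := fun s =>
    ∑ i, PowerSeries.C (s (b i)) * PowerSeries.map (Int.castRingHom K) (ω i) with hws
  have hmapω : ∀ (T : Type) [CommRing T] (φ : K →+* T) (i : Fin m),
      PowerSeries.map φ (PowerSeries.map (Int.castRingHom K) (ω i)) =
        PowerSeries.map (Int.castRingHom T) (ω i) := by
    intro T _ φ i
    ext n
    rw [PowerSeries.coeff_map, PowerSeries.coeff_map, PowerSeries.coeff_map]
    simp
  have hmapws : ∀ (s t : K ≃ₐ[ℚ] K),
      PowerSeries.map (t : K →+* K) (ws s) = ws (t * s) := by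
    intro s t
    rw [hws]
    simp only [map_sum, map_mul]
    refine sum_congr rfl fun i _ => ?_
    rw [hmapω, PowerSeries.map_C]
    rfl
  have hmapR : ∀ s : K ≃ₐ[ℚ] K, PowerSeries.map (algebraMap K ℝ) (ws s) =
      ∑ i, PowerSeries.C (β (π s i)) * PowerSeries.map (Int.castRingHom ℝ) (ω i) := by
    intro s
    rw [hws]
    simp only [map_sum, map_mul]
    refine sum_congr rfl fun i _ => ?_
    rw [hmapω, PowerSeries.map_C, hπ]
  have hone : ws 1 = wK := rfl
  have hmapR1 : PowerSeries.map (algebraMap K ℝ) (ws 1) =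
      ∑ i, PowerSeries.C (β i) * PowerSeries.map (Int.castRingHom ℝ) (ω i) := by
    rw [hws]
    simp only [map_sum, map_mul]
    refine sum_congr rfl fun i _ => ?_
    rw [hmapω, PowerSeries.map_C]
    rfl
  have hinjR : Function.Injective (PowerSeries.map (algebraMap K ℝ)) :=
    PowerSeries.map_injective _ (algebraMap K ℝ).injective
  -- the vanishing over `K`
  have hevK : ev (PowerSeries.C ((δ : K) ^ 2) * PowerSeries.X) (ws 1) (hmg F₁.natDegree F₁) = 0 := by
    apply hinjR
    rw [map_ev, map_zero, hmapR1, map_mul, PowerSeries.map_C, PowerSeries.map_X]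
    have : (algebraMap K ℝ) ((δ : K) ^ 2) = (δ : ℝ) ^ 2 := by
      rw [map_pow, map_intCast]
    rw [this]
    exact hev
  have hevs : ∀ s : K ≃ₐ[ℚ] K,
      ev (PowerSeries.C ((δ : K) ^ 2) * PowerSeries.X) (ws s) (hmg F₁.natDegree F₁) = 0 := by
    intro s
    have h1 := congrArg (PowerSeries.map (s : K →+* K)) hevK
    rw [map_ev, map_zero, hmapws, mul_one, map_mul, PowerSeries.map_C, PowerSeries.map_X] at h1
    have : (s : K →+* K) ((δ : K) ^ 2) = (δ : K) ^ 2 := by
      rw [map_pow, map_intCast]
    rw [this] at h1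
    exact h1
  -- injectivity
  have hwinj : Function.Injective ws := by
    intro s t hst
    have h1 := congrArg (PowerSeries.map ((t⁻¹ : K ≃ₐ[ℚ] K) : K →+* K)) hst
    rw [hmapws, hmapws, inv_mul_cancel] at h1
    set u : K ≃ₐ[ℚ] K := t⁻¹ * s with hu
    have h2 := congrArg (PowerSeries.map (algebraMap K ℝ)) h1
    rw [hmapR, hmapR1] at h2
    have hbij : Function.Bijective (π u) := Finite.injective_iff_bijective.1 (hπinj u)
    have h3 := hperm (Equiv.ofBijective _ hbij) h2
    have h4 : ∀ i, u (b i) = b i := by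
      intro i
      apply (algebraMap K ℝ).injective
      rw [← hπ, hbv]
      have h5 := congrArg (fun e : Equiv.Perm (Fin m) => e i) h3
      simp only [Equiv.ofBijective_apply, Equiv.Perm.coe_one, id_eq] at h5
      rw [h5]
    have h5 : (u : K →ₐ[ℚ] K) = AlgHom.id ℚ K := by
      apply IntermediateField.algHom_ext_of_eq_adjoin _ hK
      rintro x ⟨i, rfl⟩
      exact h4 i
    have h6 : u = 1 := by
      ext x
      have := congrArg (fun f : K →ₐ[ℚ] K => f x) h5
      simp only [AlgHom.coe_id, id_eq] at this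
      exact congrArg _ this
    rw [hu, inv_mul_eq_one] at h6
    exact h6.symm
  -- counting roots
  set P : (PowerSeries K)[X] :=
    (hmg F₁.natDegree F₁).map (evf (PowerSeries.C ((δ : K) ^ 2) * PowerSeries.X)) with hP
  have hPc : P.coeff F₁.natDegree = 1 := by
    rw [hP, coeff_map, coeff_hmg, if_pos (by omega), Nat.sub_self, hF₁.coeff_natDegree]
    have : reflect 0 (1 : ℤ[X]) = 1 := by
      rw [← C_1, reflect_C, pow_zero, mul_one]
    rw [this, map_one]
  have hP0 : P ≠ 0 := by
    intro h
    rw [h, coeff_zero] at hPc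
    exact zero_ne_one hPc
  have hPd : P.natDegree ≤ F₁.natDegree :=
    natDegree_map_le.trans (natDegree_hmg _ _)
  have hroots : ∀ s : K ≃ₐ[ℚ] K, ws s ∈ P.roots.toFinset := by
    intro s
    rw [Multiset.mem_toFinset, mem_roots hP0, IsRoot, hP, eval_map]
    exact hevs s
  have h1 : Nat.card (K ≃ₐ[ℚ] K) ≤ P.roots.toFinset.card := by
    rw [Nat.card_eq_fintype_card, ← Finset.card_univ]
    exact Finset.card_le_card_of_injOn ws (fun s _ => hroots s) (fun s _ t _ h => hwinj h)
  exact h1.trans ((Multiset.toFinset_card_le _).trans ((card_roots' P).trans hPd))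

end Pool.Agent.W29.EsgCard

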