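import Mathlib
import Pool.Agent.H565R2.NS.Tsq

/-!
# Four squares `n = x² + y² + z² + w²` with `2^(x+y) + 2^(z+w) + 1` prime to `2^(8L) - 1`
-/

set_option autoImplicit false

namespace Pool.Agent.W29.FSq

/-- The local statement: if `a^(8L) = 1` with `L` odd in a field of characteristic not two, then
`a^(2Lj) + a^t + 1 ≠ 0` with `a = 2` for all odd `j` and `t`. -/
theorem ne_zero_of {p : ℕ} [Fact p.Prime] (hp : p ≠ 2) {L j t : ℕ} (hL : Odd L) (hj : Odd j)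
    (ht : Odd t) (h : (2 : ZMod p) ^ (8 * L) = 1) :
    (2 : ZMod p) ^ (2 * L * j) + 2 ^ t + 1 ≠ 0 := by
  intro h0
  have h2 : (2 : ZMod p) ≠ 0 := by
    intro h2
    have : ((2 : ℕ) : ZMod p) = 0 := by exact_mod_cast h2
    rw [ZMod.natCast_eq_zero_iff] at this
    exact hp ((Nat.prime_dvd_prime_iff_eq Fact.out Nat.prime_two).1 this)
  have hodd : Odd (L * j) := hL.mul hj
  set c : ZMod p := (2 : ZMod p) ^ (2 * L * j) with hc
  have hc4 : c ^ 4 = 1 := by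
    rw [hc, ← pow_mul, show 2 * L * j * 4 = 8 * L * j by ring, pow_mul, h, one_pow]
  have hcase : c = -1 ∨ c = 1 ∨ c ^ 2 = -1 := by
    have h1 : (c + 1) * ((c - 1) * (c ^ 2 + 1)) = 0 := by
      have : (c + 1) * ((c - 1) * (c ^ 2 + 1)) = c ^ 4 - 1 := by ring
      rw [this, hc4, sub_self]
    rcases mul_eq_zero.1 h1 with h1 | h1
    · left; linear_combination h1
    · rcases mul_eq_zero.1 h1 with h1 | h1
      · right; left; linear_combination h1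
      · right; right; linear_combination h1
  have h11 : (1 : ZMod p) ≠ -1 := by
    intro h
    apply h2
    linear_combination h
  obtain ⟨r, hr⟩ := ht
  rcases hcase with hc1 | hc1 | hc1
  · rw [hc1] at h0
    have : (2 : ZMod p) ^ t = 0 := by linear_combination h0
    exact h2 (pow_eq_zero_iff (by omega) |>.1 this)
  · have h3 : (2 : ZMod p) ^ (2 * r) = -1 := by
      have h4 : (2 : ZMod p) ^ t = 2 * 2 ^ (2 * r) := by rw [hr, pow_succ]; ring
      have h5 : (2 : ZMod p) * (2 ^ (2 * r) + 1) = 0 := by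
        rw [h4, hc1] at h0; linear_combination h0
      rcases mul_eq_zero.1 h5 with h6 | h6
      · exact absurd h6 h2
      · linear_combination h6
    have h7 : ((2 : ZMod p) ^ (2 * r)) ^ (L * j) = (c) ^ r := by
      rw [hc, ← pow_mul, ← pow_mul]; congr 1; ring
    rw [h3, hc1, one_pow, hodd.neg_one_pow] at h7
    exact h11 h7.symm
  · have h3 : (2 : ZMod p) ^ (2 * (2 * r) + 1) = c := by
      have h4 : (2 : ZMod p) ^ t = -(1 + c) := by linear_combination h0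
      have h5 : ((2 : ZMod p) ^ t) ^ 2 = 2 * c := by
        rw [h4]; linear_combination hc1
      have h6 : ((2 : ZMod p) ^ t) ^ 2 = 2 * 2 ^ (2 * (2 * r) + 1) := by
        rw [hr, ← pow_mul, ← pow_succ']; congr 1; ring
      rw [h6] at h5
      exact mul_left_cancel₀ h2 h5
    have h7 : ((2 : ZMod p) ^ (2 * (2 * r) + 1)) ^ (2 * (L * j)) = c ^ (2 * (2 * r) + 1) := by
      rw [hc, ← pow_mul, ← pow_mul]; congr 1; ring
    rw [h3, pow_mul, hc1, hodd.neg_one_pow, pow_succ, pow_mul, hc1, pow_mul] at h7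
    simp only [even_two, Even.neg_pow, one_pow, one_mul] at h7
    rw [← h7] at hc1
    apply h11
    linear_combination hc1

theorem sq_mod (v : ℤ) : v ^ 2 % 4 = 0 ∧ 2 ∣ v ∨ v ^ 2 % 4 = 1 ∧ ¬ 2 ∣ v := by
  rcases Int.even_or_odd v with h | h
  · left
    obtain ⟨k, hk⟩ := h
    refine ⟨?_, ⟨k, by omega⟩⟩
    rw [hk]; ring_nf; omega
  · right
    obtain ⟨k, hk⟩ := h
    refine ⟨?_, by omega⟩
    rw [hk]; ring_nf; omega

/-- sorted version of three squares for `m = 2 mod 4`. -/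
theorem three_sorted {m : ℕ} (hm : m % 4 = 2) :
    ∃ t u v : ℕ, v ≤ t ∧ (2 * t + 1) ^ 2 + (2 * u) ^ 2 + (2 * v + 1) ^ 2 = m := by
  obtain ⟨x, y, z, h⟩ := Pool.Agent.H565R2.NS.three_squares_two hm
  -- a common step
  have key : ∀ a b c : ℤ, ¬ 2 ∣ a → 2 ∣ b → ¬ 2 ∣ c → a ^ 2 + b ^ 2 + c ^ 2 = m →
      c.natAbs ≤ a.natAbs →
      ∃ t u v : ℕ, v ≤ t ∧ (2 * t + 1) ^ 2 + (2 * u) ^ 2 + (2 * v + 1) ^ 2 = m := by
    intro a b c ha hb hc habc hle
    obtain ⟨t, ht⟩ : ∃ t, a.natAbs = 2 * t + 1 := ⟨a.natAbs / 2, by omega⟩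
    obtain ⟨u, hu⟩ : ∃ u, b.natAbs = 2 * u := ⟨b.natAbs / 2, by omega⟩
    obtain ⟨v, hv⟩ : ∃ v, c.natAbs = 2 * v + 1 := ⟨c.natAbs / 2, by omega⟩
    refine ⟨t, u, v, by omega, ?_⟩
    rw [← ht, ← hu, ← hv]
    zify
    rw [sq_abs, sq_abs, sq_abs]
    exact habc
  have key2 : ∀ a b c : ℤ, ¬ 2 ∣ a → 2 ∣ b → ¬ 2 ∣ c → a ^ 2 + b ^ 2 + c ^ 2 = m →
      ∃ t u v : ℕ, v ≤ t ∧ (2 * t + 1) ^ 2 + (2 * u) ^ 2 + (2 * v + 1) ^ 2 = m := by
    intro a b c ha hb hc habc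
    rcases le_total c.natAbs a.natAbs with hle | hle
    · exact key a b c ha hb hc habc hle
    · exact key c b a hc hb ha (by rw [← habc]; ring) hle
  have hm' : ((m : ℤ)) % 4 = 2 := by omega
  rcases sq_mod x with ⟨hx, hx'⟩ | ⟨hx, hx'⟩ <;> rcases sq_mod y with ⟨hy, hy'⟩ | ⟨hy, hy'⟩ <;>
    rcases sq_mod z with ⟨hz, hz'⟩ | ⟨hz, hz'⟩
  · omega
  · omega
  · omega
  · exact key2 y x z hy' hx' hz' (by rw [← h]; ring)
  · omega
  · exact key2 x y z hx' hy' hz' h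
  · exact key2 x z y hx' hz' hy' (by rw [← h]; ring)
  · omega

/-- A representation with `x + y = 2 s` prescribed and `z + w` odd. -/
theorem rep {n s : ℕ} (hn : Odd n) (h1 : n < (2 * s) ^ 2) (h2 : (2 * s) ^ 2 < 2 * n) :
    ∃ x y z w t : ℕ, n = x ^ 2 + y ^ 2 + z ^ 2 + w ^ 2 ∧ x + y = 2 * s ∧ z + w = 2 * t + 1 := by
  have hm : (2 * n - (2 * s) ^ 2) % 4 = 2 := by
    have h3 : (2 * s) ^ 2 = 4 * s ^ 2 := by ring
    obtain ⟨k, hk⟩ := hn
    omega
  obtain ⟨t, u, v, hvt, htuv⟩ := three_sorted hm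
  have hsum : (2 * t + 1) ^ 2 + (2 * u) ^ 2 + (2 * v + 1) ^ 2 + (2 * s) ^ 2 = 2 * n := by omega
  have hus : u ≤ s := by
    by_contra hcon
    push Not at hcon
    have : (2 * s) ^ 2 ≤ (2 * u) ^ 2 := Nat.pow_le_pow_left (by omega) 2
    nlinarith
  refine ⟨s + u, s - u, t + v + 1, t - v, t, ?_, by omega, by omega⟩
  zify [hus, hvt]
  have hsum' : (2 * (t : ℤ) + 1) ^ 2 + (2 * u) ^ 2 + (2 * v + 1) ^ 2 + (2 * s) ^ 2 = 2 * n := by
    exact_mod_cast hsum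
  linarith [hsum', sq_nonneg (t : ℤ)]

/-- choice of `s` in a residue class. -/
theorem exists_s {n Q s₀ : ℕ} (hQ : 0 < Q) (h : 36 * Q ^ 2 ≤ n) :
    ∃ s, s ≡ s₀ [MOD Q] ∧ n < s ^ 2 ∧ s ^ 2 < 2 * n := by
  set r := Nat.sqrt n with hr
  have hr1 : r * r ≤ n := Nat.sqrt_le n
  have hr2 : n < (r + 1) * (r + 1) := Nat.lt_succ_sqrt n
  have hr3 : 6 * Q ≤ r := by
    rw [hr, Nat.le_sqrt]; nlinarith
  -- the representative of `s₀` in `[r + 1, r + Q]`
  obtain ⟨s, hs1, hs2, hs3⟩ : ∃ s, s ≡ s₀ [MOD Q] ∧ r + 1 ≤ s ∧ s ≤ r + Q := by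
    refine ⟨r + 1 + (s₀ + Q * (r + 1) - (r + 1)) % Q, ?_, by omega, ?_⟩
    · have hle : r + 1 ≤ s₀ + Q * (r + 1) := by nlinarith
      have h1 : r + 1 + (s₀ + Q * (r + 1) - (r + 1)) % Q ≡
          r + 1 + (s₀ + Q * (r + 1) - (r + 1)) [MOD Q] := (Nat.mod_modEq _ _).add_left _
      rw [show r + 1 + (s₀ + Q * (r + 1) - (r + 1)) = s₀ + Q * (r + 1) by omega] at h1
      refine h1.trans ?_
      have := (Nat.modEq_zero_iff_dvd.2 (Dvd.intro (r + 1) rfl : Q ∣ Q * (r + 1))).add_left s₀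
      rwa [add_zero] at this
    · have := Nat.mod_lt (s₀ + Q * (r + 1) - (r + 1)) hQ
      omega
  refine ⟨s, hs1, ?_, ?_⟩
  · calc n < (r + 1) * (r + 1) := hr2
      _ ≤ s ^ 2 := by rw [sq]; exact Nat.mul_le_mul hs2 hs2
  · calc s ^ 2 ≤ (r + Q) ^ 2 := Nat.pow_le_pow_left hs3 2
      _ < 2 * n := by nlinarith

/-- Some primitive `2 ^ k`-th root of unity `μ` is such that `-1 - μ` is not an odd power of two. -/
theorem exists_root {p : ℕ} [Fact p.Prime] (hp : p ≠ 2) (heven : Even (orderOf (2 : ZMod p)))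
    {k : ℕ} (hk : 2 ≤ k) {ζ : ZMod p} (hζ : IsPrimitiveRoot ζ (2 ^ k)) :
    ∃ μ : ZMod p, IsPrimitiveRoot μ (2 ^ k) ∧ ∀ t : ℕ, Odd t → μ + 2 ^ t + 1 ≠ 0 := by
  by_contra hcon
  push Not at hcon
  have h2 : (2 : ZMod p) ≠ 0 := by
    intro h2
    have : ((2 : ℕ) : ZMod p) = 0 := by exact_mod_cast h2
    rw [ZMod.natCast_eq_zero_iff] at this
    exact hp ((Nat.prime_dvd_prime_iff_eq Fact.out Nat.prime_two).1 this)
  have hpos : 0 < 2 ^ k := by positivity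
  have hex : ∀ μ : ZMod p, ∃ t : ℕ, μ ∈ primitiveRoots (2 ^ k) (ZMod p) →
      Odd t ∧ μ + 2 ^ t + 1 = 0 := by
    intro μ
    by_cases hμ : μ ∈ primitiveRoots (2 ^ k) (ZMod p)
    · obtain ⟨t, ht1, ht2⟩ := hcon μ ((mem_primitiveRoots hpos).1 hμ)
      exact ⟨t, fun _ => ⟨ht1, ht2⟩⟩
    · exact ⟨0, fun h => absurd h hμ⟩
  choose t ht using hex
  obtain ⟨l, rfl⟩ : ∃ l, k = l + 1 + 1 := ⟨k - 2, by omega⟩
  have h1 := congrArg (Polynomial.eval (-1))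
    (Polynomial.cyclotomic_eq_prod_X_sub_primitiveRoots hζ)
  rw [Polynomial.cyclotomic_prime_pow_eq_geom_sum Nat.prime_two, Polynomial.eval_prod] at h1
  simp only [Finset.sum_range_succ, Finset.sum_range_zero, pow_zero, pow_one, zero_add,
    Polynomial.eval_add, Polynomial.eval_one, Polynomial.eval_pow, Polynomial.eval_X,
    Polynomial.eval_sub, Polynomial.eval_C] at h1
  have heven2 : Even (2 ^ (l + 1)) := (even_two).pow_of_ne_zero (by omega)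
  rw [heven2.neg_one_pow] at h1
  have h3 : ∏ μ ∈ primitiveRoots (2 ^ (l + 1 + 1)) (ZMod p), (-1 - μ) =
      (2 : ZMod p) ^ (∑ μ ∈ primitiveRoots (2 ^ (l + 1 + 1)) (ZMod p), t μ) := by
    rw [← Finset.prod_pow_eq_pow_sum]
    refine Finset.prod_congr rfl fun μ hμ => ?_
    linear_combination -(ht μ hμ).2
  rw [h3] at h1
  have hev : Even (∑ μ ∈ primitiveRoots (2 ^ (l + 1 + 1)) (ZMod p), t μ) := by
    rw [Finset.even_sum_iff_even_card_odd,
      Finset.filter_true_of_mem (fun μ hμ => (ht μ hμ).1), hζ.card_primitiveRoots,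
      Nat.totient_prime_pow_succ Nat.prime_two]
    simpa using heven2
  obtain ⟨r, hr⟩ := hev
  have hr0 : 0 < r := by
    have hζm : ζ ∈ primitiveRoots (2 ^ (l + 1 + 1)) (ZMod p) := (mem_primitiveRoots hpos).2 hζ
    have := Finset.single_le_sum (f := t) (fun _ _ => Nat.zero_le _) hζm
    have h5 := (ht ζ hζm).1.pos
    omega
  rw [hr] at h1
  have h4 : (2 : ZMod p) ^ (2 * (r - 1) + 1) = 1 := by
    apply mul_left_cancel₀ h2
    rw [← pow_succ', mul_one, show 2 * (r - 1) + 1 + 1 = r + r by omega]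
    rw [← h1]; norm_num
  have h5 := orderOf_dvd_of_pow_eq_one h4
  obtain ⟨c, hc⟩ := heven.two_dvd.trans h5
  omega

/-- A residue class of even `s = 2 L j`, `j` odd, which is good for the prime `p`. -/
theorem good_class {p : ℕ} [Fact p.Prime] (hp : p ≠ 2) {L a m : ℕ} (hL : Odd L) (hm : Odd m)
    (ha : 3 ≤ a) (hord : orderOf (2 : ZMod p) = 2 ^ a * m) :
    ∃ s₀ : ℕ, ∀ s : ℕ, s ≡ s₀ [MOD L * (2 ^ a * m)] →
      (∃ j, Odd j ∧ s = 2 * L * j) ∧ ∀ t : ℕ, Odd t → (2 : ZMod p) ^ s + 2 ^ t + 1 ≠ 0 := by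
  obtain ⟨k, rfl⟩ : ∃ k, a = k + 1 := ⟨a - 1, by omega⟩
  have hζ : IsPrimitiveRoot ((2 : ZMod p) ^ (2 * m)) (2 ^ k) := by
    have h1 : orderOf ((2 : ZMod p) ^ (2 * m)) = 2 ^ k := by
      have hm0 : 0 < m := hm.pos
      rw [orderOf_pow' _ (by omega), hord]
      have h2 : Nat.gcd (2 ^ (k + 1) * m) (2 * m) = 2 * m := by
        apply Nat.gcd_eq_right
        exact ⟨2 ^ k, by ring⟩
      rw [h2, show 2 ^ (k + 1) * m = 2 ^ k * (2 * m) by ring]
      exact Nat.mul_div_cancel _ (by omega)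
    rw [← h1]; exact IsPrimitiveRoot.orderOf _
  have heven : Even (orderOf (2 : ZMod p)) := by
    rw [hord, pow_succ]; exact ⟨2 ^ k * m, by ring⟩
  obtain ⟨μ, hμ, hμt⟩ := exists_root hp heven (by omega) hζ
  have : NeZero (2 ^ k) := ⟨by positivity⟩
  obtain ⟨i, -, hi2, hi3⟩ := (hζ.isPrimitiveRoot_iff).1 hμ
  have hiodd : Odd i := by
    rw [← Nat.not_even_iff_odd, even_iff_two_dvd]
    intro h2
    have : 2 ∣ Nat.gcd i (2 ^ k) := Nat.dvd_gcd h2 (dvd_pow_self 2 (by omega))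
    rw [hi2] at this
    omega
  -- solve `L j₀ = i` modulo `2 ^ k`
  have hcop : Nat.Coprime L (2 ^ k) := Nat.Coprime.pow_right k (Nat.coprime_two_right.2 hL)
  obtain ⟨j₀, hj₀⟩ : ∃ j₀, L * j₀ ≡ i [MOD 2 ^ k] := by
    obtain ⟨b, -, hb⟩ := Nat.exists_mul_mod_eq_one_of_coprime hcop
      (Nat.one_lt_pow (by omega) (by omega))
    refine ⟨b * i, ?_⟩
    have hb' : L * b ≡ 1 [MOD 2 ^ k] := by
      rw [Nat.ModEq, hb, Nat.mod_eq_of_lt (Nat.one_lt_pow (by omega) (by omega))]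
    have := hb'.mul_right i
    rwa [one_mul, mul_assoc] at this
  refine ⟨2 * L * m * j₀, fun s hs => ?_⟩
  -- `s = 2 L m j₀ + ...`
  have hdvd : 2 * L * m ∣ s := by
    have h1 : 2 * L * m ∣ L * (2 ^ (k + 1) * m) := ⟨2 ^ k, by ring⟩
    have h2 := hs.of_dvd h1
    exact (Nat.modEq_zero_iff_dvd).1 (h2.trans
      ((Nat.modEq_zero_iff_dvd).2 (Dvd.intro _ rfl)))
  obtain ⟨j, rfl⟩ := hdvd
  have hLm : 0 < 2 * L * m := by
    have := hL.pos; have := hm.pos; positivity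
  have hjj : j ≡ j₀ [MOD 2 ^ k] := by
    have h3 : L * (2 ^ (k + 1) * m) = 2 * L * m * 2 ^ k := by ring
    rw [h3] at hs
    exact Nat.ModEq.mul_left_cancel' (by omega) hs
  have hLj : L * j ≡ i [MOD 2 ^ k] := (hjj.mul_left L).trans hj₀
  have hjodd : Odd j := by
    rw [← Nat.not_even_iff_odd, even_iff_two_dvd]
    intro h2
    have h5 : L * j ≡ i [MOD 2] := hLj.of_dvd (dvd_pow_self 2 (by omega))
    have h6 : i ≡ 0 [MOD 2] := h5.symm.trans ((Nat.modEq_zero_iff_dvd).2 (h2.mul_left L))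
    rw [Nat.modEq_zero_iff_dvd] at h6
    exact (Nat.not_even_iff_odd.2 hiodd) (even_iff_two_dvd.2 h6)
  refine ⟨⟨m * j, hm.mul hjodd, by ring⟩, ?_⟩
  have h7 : (2 : ZMod p) ^ (2 * L * m * j) = μ := by
    rw [show 2 * L * m * j = 2 * m * (L * j) by ring, pow_mul, ← hi3]
    exact pow_eq_pow_of_modEq hLj hζ.pow_eq_one
  rw [h7]
  exact hμt

/-- Main statement. -/
theorem main {n L p : ℕ} (hn : Odd n) (hL : Odd L) (hp : p.Prime)
    (h : 576 * (p * L) ^ 2 ≤ n) :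
    ∃ x y z w : ℕ, n = x ^ 2 + y ^ 2 + z ^ 2 + w ^ 2 ∧
      Nat.Coprime (2 ^ (x + y) + 2 ^ (z + w) + 1) (p * (2 ^ (8 * L) - 1)) := by
  have hL0 := hL.pos
  have hp0 := hp.pos
  have hpF : Fact p.Prime := ⟨hp⟩
  -- it is enough to find a good `s`
  suffices H : ∃ s, n < (2 * s) ^ 2 ∧ (2 * s) ^ 2 < 2 * n ∧ (∃ j, Odd j ∧ s = L * j) ∧
      ∀ t : ℕ, Odd t → p ≠ 2 → (2 : ZMod p) ^ (2 * s) + 2 ^ t + 1 ≠ 0 by
    obtain ⟨s, h1, h2, ⟨j, hj, hsj⟩, h4⟩ := H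
    obtain ⟨x, y, z, w, t, hx, hxy, hzw⟩ := rep hn h1 h2
    refine ⟨x, y, z, w, hx, ?_⟩
    rw [hxy, hzw]
    have hs0 : 2 * s ≠ 0 := by
      rintro h0; rw [h0] at h1; simp at h1
    have hodd : ¬ 2 ∣ 2 ^ (2 * s) + 2 ^ (2 * t + 1) + 1 := by
      have e1 : 2 ∣ 2 ^ (2 * s) := dvd_pow_self 2 hs0
      have e2 : 2 ∣ 2 ^ (2 * t + 1) := dvd_pow_self 2 (by omega)
      omega
    apply Nat.Coprime.mul_right
    · rw [Nat.coprime_comm, hp.coprime_iff_not_dvd]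
      intro hdvd
      have hp2 : p ≠ 2 := by rintro rfl; exact hodd hdvd
      apply h4 (2 * t + 1) ⟨t, rfl⟩ hp2
      have h7 : ((2 ^ (2 * s) + 2 ^ (2 * t + 1) + 1 : ℕ) : ZMod p) = 0 :=
        (ZMod.natCast_eq_zero_iff _ _).2 hdvd
      push_cast at h7
      exact h7
    · apply Nat.coprime_of_dvd
      intro q hq hq1 hq2
      have : Fact q.Prime := ⟨hq⟩
      have hpow : 1 ≤ 2 ^ (8 * L) := Nat.one_le_two_pow
      have hp2' : (2 : ZMod q) ^ (8 * L) = 1 := by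
        have h3 : ((2 ^ (8 * L) - 1 : ℕ) : ZMod q) = 0 := (ZMod.natCast_eq_zero_iff _ _).2 hq2
        rw [Nat.cast_sub hpow] at h3
        push_cast at h3
        linear_combination h3
      have hqne : q ≠ 2 := by rintro rfl; exact hodd hq1
      have h6 := ne_zero_of hqne hL hj (t := 2 * t + 1) ⟨t, rfl⟩ hp2'
      apply h6
      have h7 : ((2 ^ (2 * s) + 2 ^ (2 * t + 1) + 1 : ℕ) : ZMod q) = 0 :=
        (ZMod.natCast_eq_zero_iff _ _).2 hq1
      push_cast at h7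
      rw [hsj, show 2 * (L * j) = 2 * L * j by ring] at h7
      exact h7
  by_cases hp2 : p = 2
  · have hQ : 36 * (4 * L) ^ 2 ≤ n := by rw [hp2] at h; nlinarith
    obtain ⟨s, hs1, hs2, hs3⟩ := exists_s (s₀ := 2 * L) (by omega) hQ
    obtain ⟨j, hj⟩ : 2 * L ∣ s := by
      have h1 : 2 * L ∣ 4 * L := ⟨2, by ring⟩
      exact (Nat.modEq_zero_iff_dvd).1 ((hs1.of_dvd h1).trans
        ((Nat.modEq_zero_iff_dvd).2 (dvd_refl _)))
    have hjodd : Odd j := by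
      rw [hj, show 4 * L = 2 * L * 2 by ring] at hs1
      have h5 : 2 * L * j ≡ 2 * L * 1 [MOD 2 * L * 2] := by simpa using hs1
      have h6 : j ≡ 1 [MOD 2] := Nat.ModEq.mul_left_cancel' (by omega) h5
      exact Nat.odd_iff.2 h6
    refine ⟨L * j, ?_, ?_, ⟨j, hjodd, rfl⟩, fun t _ hpn => absurd hp2 hpn⟩
    · rw [← mul_assoc, ← hj]; exact hs2
    · rw [← mul_assoc, ← hj]; exact hs3
  · have h2 : (2 : ZMod p) ≠ 0 := by
      intro h2
      have : ((2 : ℕ) : ZMod p) = 0 := by exact_mod_cast h2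
      rw [ZMod.natCast_eq_zero_iff] at this
      exact hp2 ((Nat.prime_dvd_prime_iff_eq Fact.out Nat.prime_two).1 this)
    have hordp : orderOf (2 : ZMod p) ∣ p - 1 := ZMod.orderOf_dvd_card_sub_one h2
    have hpm : 0 < p - 1 := by have := hp.one_lt; omega
    have hordle : orderOf (2 : ZMod p) ≤ p := (Nat.le_of_dvd hpm hordp).trans (Nat.sub_le _ _)
    have hord0 : orderOf (2 : ZMod p) ≠ 0 := fun h0 => by
      rw [h0, zero_dvd_iff] at hordp; omega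
    obtain ⟨a, m, hm, ham⟩ := Nat.exists_eq_two_pow_mul_odd hord0
    rcases Nat.lt_or_ge a 3 with ha | ha
    · -- `p` divides `2 ^ (8 L m) - 1`
      have hL1 : Odd (L * m) := hL.mul hm
      have hmle : m ≤ p := (Nat.le_of_dvd (by omega) ⟨2 ^ a, by rw [ham]; ring⟩).trans hordle
      have hQ : 36 * (4 * (L * m)) ^ 2 ≤ n := by
        have : (L * m) ^ 2 ≤ (p * L) ^ 2 := Nat.pow_le_pow_left (by nlinarith) 2
        nlinarith
      have hLm0 := hL1.pos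
      obtain ⟨s, hs1, hs2, hs3⟩ := exists_s (s₀ := 2 * (L * m)) (by omega) hQ
      obtain ⟨j, hj⟩ : 2 * (L * m) ∣ s := by
        have h1 : 2 * (L * m) ∣ 4 * (L * m) := ⟨2, by ring⟩
        exact (Nat.modEq_zero_iff_dvd).1 ((hs1.of_dvd h1).trans
          ((Nat.modEq_zero_iff_dvd).2 (dvd_refl _)))
      have hjodd : Odd j := by
        rw [hj, show 4 * (L * m) = 2 * (L * m) * 2 by ring] at hs1
        have h5 : 2 * (L * m) * j ≡ 2 * (L * m) * 1 [MOD 2 * (L * m) * 2] := by simpa using hs1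
        have h6 : j ≡ 1 [MOD 2] := Nat.ModEq.mul_left_cancel' (by omega) h5
        exact Nat.odd_iff.2 h6
      refine ⟨L * m * j, ?_, ?_, ⟨m * j, hm.mul hjodd, by ring⟩, fun t ht _ => ?_⟩
      · rw [← mul_assoc, ← hj]; exact hs2
      · rw [← mul_assoc, ← hj]; exact hs3
      · rw [← mul_assoc]
        apply ne_zero_of hp2 hL1 hjodd ht
        apply orderOf_dvd_iff_pow_eq_one.1
        rw [ham, show 8 * (L * m) = 2 ^ 3 * m * L by ring]
        exact Dvd.dvd.mul_right (Nat.mul_dvd_mul_right (pow_dvd_pow 2 (by omega)) m) L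
    · obtain ⟨s₀, hs₀⟩ := good_class hp2 hL hm ha ham
      have hQ : 36 * (L * (2 ^ a * m)) ^ 2 ≤ n := by
        rw [← ham]
        have : (L * orderOf (2 : ZMod p)) ^ 2 ≤ (p * L) ^ 2 :=
          Nat.pow_le_pow_left (by nlinarith) 2
        nlinarith
      obtain ⟨s, hs1, hs2, hs3⟩ := exists_s (s₀ := s₀) (by
        rw [← ham]; exact Nat.mul_pos hL0 (Nat.pos_of_ne_zero hord0)) hQ
      obtain ⟨⟨j, hj, hsj⟩, hgood⟩ := hs₀ s hs1
      refine ⟨L * j, ?_, ?_, ⟨j, hj, rfl⟩, fun t ht _ => ?_⟩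
      · rw [← mul_assoc, ← hsj]; exact hs2
      · rw [← mul_assoc, ← hsj]; exact hs3
      · rw [← mul_assoc, ← hsj]; exact hgood t ht

end Pool.Agent.W29.FSq
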