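import Pool.Agent.W428.MOT.Stm

/-!
# Project MT (helper428), part RAT: rationality of the counting series, with only the rays
-/

set_option autoImplicit false

namespace Pool.Agent.W29.MTRat

open Pool.Agent.W428.MOT
open Pool.Agent.W426.SM (AffInd gord ford IsRay face)

variable {n r : ℕ}

theorem gord_le (m : Fin r → Fin n → ℕ) (u : Fin n → ℕ) (j : Fin r) :
    gord m u ≤ ∑ i, u i * m j i := ciInf_le (OrderBot.bddBelow _) j

theorem exists_gord (hk : 0 < r) (m : Fin r → Fin n → ℕ) (u : Fin n → ℕ) :
    ∃ j, ∑ i, u i * m j i = gord m u := by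
  have : Nonempty (Fin r) := ⟨⟨0, hk⟩⟩
  exact Nat.sInf_mem (Set.range_nonempty (fun j => ∑ i, u i * m j i))

theorem mem_amin {m : Fin r → Fin n → ℕ} {u : Fin n → ℕ} {j : Fin r} :
    j ∈ amin m u ↔ ∑ i, u i * m j i = gord m u := by simp [amin]

/-- the forms -/
def hh (m : Fin r → Fin n → ℕ) (j0 : Fin r) : Fin (r + n) → Fin n → ℤ :=
  Fin.addCases (fun l i => (m l i : ℤ) - m j0 i) (fun l i => if i = l then 1 else 0)

/-- the right-hand sides -/
def dd (J : Finset (Fin n)) (τ : Finset (Fin r)) : Fin (r + n) → ℤ :=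
  Fin.addCases (fun l => if l ∈ τ then 0 else 1) (fun i => if i ∈ J then 1 else 0)

theorem hh_left (m : Fin r → Fin n → ℕ) (j0 : Fin r) (l : Fin r) (i : Fin n) :
    hh m j0 (Fin.castAdd n l) i = (m l i : ℤ) - m j0 i := by
  simp [hh]

theorem hh_right (m : Fin r → Fin n → ℕ) (j0 : Fin r) (l : Fin n) (i : Fin n) :
    hh m j0 (Fin.natAdd r l) i = if i = l then 1 else 0 := by
  simp [hh]

theorem dd_left (J : Finset (Fin n)) (τ : Finset (Fin r)) (l : Fin r) :
    dd J τ (Fin.castAdd n l) = if l ∈ τ then 0 else 1 := by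
  simp [dd]

theorem dd_right (J : Finset (Fin n)) (τ : Finset (Fin r)) (l : Fin n) :
    dd J τ (Fin.natAdd r l) = if l ∈ J then 1 else 0 := by
  simp [dd]

theorem hsum (m : Fin r → Fin n → ℕ) (j0 l : Fin r) (u : Fin n → ℕ) :
    ∑ i, hh m j0 (Fin.castAdd n l) i * (u i : ℤ) =
      ((∑ i, u i * m l i : ℕ) : ℤ) - ((∑ i, u i * m j0 i : ℕ) : ℤ) := by
  push_cast
  rw [← Finset.sum_sub_distrib]
  refine Finset.sum_congr rfl fun i _ => ?_
  rw [hh_left]
  ring

theorem hsum2 (m : Fin r → Fin n → ℕ) (j0 : Fin r) (l : Fin n) (u : Fin n → ℕ) :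
    ∑ i, hh m j0 (Fin.natAdd r l) i * (u i : ℤ) = u l := by
  simp only [hh_right, ite_mul, one_mul, zero_mul, Finset.sum_ite_eq', Finset.mem_univ, if_true]

/-- the set of the equations -/
def EE (J : Finset (Fin n)) (τ : Finset (Fin r)) : Finset (Fin (r + n)) :=
  Finset.univ.filter fun j => dd J τ j = 0

theorem set_eq (m : Fin r → Fin n → ℕ) (J : Finset (Fin n)) (τ : Finset (Fin r)) (j0 : Fin r)
    (hj0 : j0 ∈ τ) : {u : Fin n → ℕ | Adm J u ∧ amin m u = τ} =
      Pool.Agent.W426.SM.poly (hh m j0) (dd J τ) (EE J τ) := by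
  ext u
  simp only [Set.mem_ofPred_eq, Pool.Agent.W426.SM.poly]
  constructor
  · rintro ⟨hJ, h⟩
    have h0 : ∑ i, u i * m j0 i = gord m u := mem_amin.1 (h ▸ hj0)
    refine ⟨fun j => ?_, fun j hj => ?_⟩
    · refine Fin.addCases (fun l => ?_) (fun l => ?_) j
      · rw [dd_left, hsum]
        split_ifs with hj
        · have : ∑ i, u i * m l i = gord m u := mem_amin.1 (h ▸ hj)
          rw [this, h0, sub_self]
        · have h2 : ∑ i, u i * m l i ≠ gord m u := fun h3 => hj (h ▸ mem_amin.2 h3)
          have h3 := gord_le m u l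
          rw [h0]
          omega
      · rw [dd_right, hsum2]
        split_ifs with hj
        · have := (hJ l).2 hj
          omega
        · omega
    · unfold EE at hj
      rw [Finset.mem_filter] at hj
      replace hj := hj.2
      revert hj
      refine Fin.addCases (fun l => ?_) (fun l => ?_) j
      · rw [dd_left, hsum]
        intro hj
        rw [hj]
        have hl : l ∈ τ := by
          by_contra hl
          rw [if_neg hl] at hj
          norm_num at hj
        have : ∑ i, u i * m l i = gord m u := mem_amin.1 (h ▸ hl)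
        rw [this, h0, sub_self]
      · rw [dd_right, hsum2]
        intro hj
        rw [hj]
        have hl : l ∉ J := by
          intro hl
          rw [if_pos hl] at hj
          norm_num at hj
        have : ¬ u l ≠ 0 := fun h5 => hl ((hJ l).1 h5)
        push Not at this
        rw [this]
        rfl
  · rintro ⟨ha, hb⟩
    have h0 : ∑ i, u i * m j0 i = gord m u := by
      obtain ⟨j, hj⟩ := exists_gord (Fin.pos j0) m u
      have h2 := ha (Fin.castAdd n j)
      rw [dd_left, hsum] at h2
      have h3 := gord_le m u j0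
      have h4 : (0 : ℤ) ≤ if j ∈ τ then 0 else 1 := by split_ifs <;> norm_num
      omega
    refine ⟨fun i => ?_, ?_⟩
    · have h2 := ha (Fin.natAdd r i)
      have h3 := hb (Fin.natAdd r i)
      rw [dd_right, hsum2] at h2 h3
      by_cases hi : i ∈ J
      · rw [if_pos hi] at h2
        refine ⟨fun _ => hi, fun _ => ?_⟩
        omega
      · have h4 : Fin.natAdd r i ∈ EE J τ := by
          unfold EE
          rw [Finset.mem_filter, dd_right, if_neg hi]
          exact ⟨Finset.mem_univ _, rfl⟩
        have h5 := h3 h4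
        rw [if_neg hi] at h5
        refine ⟨fun h6 => ?_, fun h6 => absurd h6 hi⟩
        omega
    · ext j
      rw [mem_amin]
      have h2 := ha (Fin.castAdd n j)
      have h3 := hb (Fin.castAdd n j)
      rw [dd_left, hsum] at h2 h3
      constructor
      · intro h
        by_contra hj
        rw [if_neg hj] at h2
        omega
      · intro hj
        have h4 : Fin.castAdd n j ∈ EE J τ := by
          unfold EE
          rw [Finset.mem_filter, dd_left, if_pos hj]
          exact ⟨Finset.mem_univ _, rfl⟩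
        have h5 := h3 h4
        rw [if_pos hj] at h5
        omega

theorem amin_nonempty (hk : 0 < r) (m : Fin r → Fin n → ℕ) (u : Fin n → ℕ) :
    (amin m u).Nonempty := by
  obtain ⟨j, hj⟩ := exists_gord hk m u
  exact ⟨j, mem_amin.2 hj⟩

/-- splitting the rays -/
theorem split_prod (A : Fin n → ℕ) (m : Fin r → Fin n → ℕ) (e : ℕ) (l : List (Fin n → ℕ))
    (hl : ∀ a ∈ l, a ≠ 0) : ∃ E0 : Polynomial ℤ, E0 ≠ 0 ∧
    (l.map fun a => 1 - PowerSeries.C (Polynomial.X ^ (∑ i, a i)) *
        PowerSeries.X ^ ford A m e a).prod =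
      ((l.filter fun a => 0 < ford A m e a).map fun a =>
        1 - PowerSeries.C (Polynomial.X ^ (∑ i, a i)) *
          PowerSeries.X ^ ford A m e a).prod * PowerSeries.C (R := Polynomial ℤ) E0 := by
  induction l with
  | nil => exact ⟨1, one_ne_zero, by simp⟩
  | cons a l ih =>
    obtain ⟨E0, hE, h⟩ := ih fun b hb => hl b (List.mem_cons_of_mem _ hb)
    by_cases ha : 0 < ford A m e a
    · refine ⟨E0, hE, ?_⟩
      rw [List.filter_cons_of_pos (by simpa using ha), List.map_cons, List.map_cons,
        List.prod_cons, List.prod_cons, h, mul_assoc]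
    · have ha0 : ford A m e a = 0 := by omega
      have hpos : 0 < ∑ i, a i := by
        have hne := hl a List.mem_cons_self
        by_contra h0
        apply hne
        have h1 : ∑ i, a i = 0 := by omega
        rw [Finset.sum_eq_zero_iff] at h1
        funext i
        exact h1 i (Finset.mem_univ i)
      refine ⟨(1 - Polynomial.X ^ (∑ i, a i)) * E0, mul_ne_zero ?_ hE, ?_⟩
      · intro h1
        have h2 := congrArg (Polynomial.eval 0) h1
        simp [hpos.ne'] at h2
      · rw [List.filter_cons_of_neg (by simpa using ha0), List.map_cons, List.prod_cons, h, ha0,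
          pow_zero, mul_one, map_mul, map_sub, map_one]
        ring

theorem Phi_congr (φ ψ : (Fin n → ℕ) → ℕ) (Q : Set (Fin n → ℕ)) (h : ∀ u ∈ Q, φ u = ψ u) :
    Phi φ Q = Phi ψ Q := by
  unfold Phi
  congr 1
  funext M
  congr 1
  funext d
  congr 2
  ext u
  simp only [Set.mem_ofPred_eq]
  constructor
  · rintro ⟨h1, h2, h3⟩
    exact ⟨h1, by rw [← h u h1]; exact h2, h3⟩
  · rintro ⟨h1, h2, h3⟩
    exact ⟨h1, by rw [h u h1]; exact h2, h3⟩

theorem map_inj : Function.Injective
    (PowerSeries.map (Polynomial.coeToPowerSeries.ringHom (R := ℤ))) := by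
  intro f g h
  ext1 M
  have h1 := congrArg (PowerSeries.coeff M) h
  rw [PowerSeries.coeff_map, PowerSeries.coeff_map] at h1
  exact Polynomial.coe_injective ℤ h1

/-- RAT -/
theorem main (h1 : S_CP2) (h2 : S_ZCF) : S_RAT := by
  classical
  intro n r A m e J τ hr he
  rcases τ.eq_empty_or_nonempty with rfl | ⟨j0, hj0⟩
  · refine ⟨[], 0, by simp, ?_⟩
    have : ∀ M, cp A m e J ∅ M M = 0 := by
      intro M
      unfold cp
      rw [Finset.filter_false_of_mem, Finset.sum_empty]
      intro u _ h
      have := amin_nonempty hr m u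
      rw [h.2.1] at this
      exact Finset.not_nonempty_empty this
    ext1 M
    simp [this]
  obtain ⟨l, P, hl, hP⟩ := h2 (hh m j0) (dd J τ) (EE J τ) (fun i => A i + e * m j0 i)
  rw [← set_eq m J τ j0 hj0] at hP
  have hmin : ∀ a ∈ l, ∑ i, a i * m j0 i = gord m a := by
    intro a ha
    obtain ⟨j, hj⟩ := exists_gord (Fin.pos j0) m a
    have h3 := (hl a ha).2.1 (Fin.castAdd n j)
    have h4 := gord_le m a j0
    rw [hsum] at h3
    omega
  have hford : ∀ u : Fin n → ℕ, ∑ i, u i * m j0 i = gord m u →
      ∑ i, (A i + e * m j0 i) * u i = ford A m e u := by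
    intro u hu
    unfold ford
    rw [← hu, Finset.mul_sum, ← Finset.sum_add_distrib]
    refine Finset.sum_congr rfl fun i _ => ?_
    ring
  have hray : ∀ a ∈ l, IsRay m a := by
    intro a ha
    refine ⟨(hl a ha).1, fun u hu hu2 => ?_⟩
    refine (hl a ha).2.2.2 u hu fun j => ?_
    refine Fin.addCases (fun j' => ?_) (fun j' => ?_) j
    · intro hj
      rw [hsum] at hj
      have hfj : face m a j' := by
        have := hmin a ha
        show ∑ i, a i * m j' i = gord m a
        omega
      have h3 := hu2 j' j0 hfj (hmin a ha)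
      have h4 : ∑ i, ((hh m j0 (Fin.castAdd n j') i : ℤ) : ℚ) * u i =
          ∑ i, u i * m j' i - ∑ i, u i * m j0 i := by
        rw [← Finset.sum_sub_distrib]
        refine Finset.sum_congr rfl fun i _ => ?_
        rw [hh_left]
        push_cast
        ring
      rw [h4, h3, sub_self]
    · intro hj
      rw [hsum2] at hj
      have h3 : u j' = 0 := hu j' (by exact_mod_cast hj)
      have h4 : ∑ i, ((hh m j0 (Fin.natAdd r j') i : ℤ) : ℚ) * u i = u j' := by
        simp only [hh_right]
        push_cast
        simp only [ite_mul, one_mul, zero_mul, Finset.sum_ite_eq', Finset.mem_univ, if_true]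
      rw [h4, h3]
  -- the product over the rays
  obtain ⟨E0, hE0, hsplit⟩ := split_prod A m e l fun a ha => (hl a ha).1
  have hprod : (l.map fun a => 1 - PowerSeries.C (PowerSeries.X ^ (∑ i, a i)) *
      PowerSeries.X ^ (∑ i, (A i + e * m j0 i) * a i)).prod =
      PowerSeries.map (Polynomial.coeToPowerSeries.ringHom (R := ℤ))
        (l.map fun a => 1 - PowerSeries.C (Polynomial.X ^ (∑ i, a i)) *
        PowerSeries.X ^ ford A m e a).prod := by
    rw [map_list_prod, List.map_map]
    congr 1
    refine List.map_congr_left fun a ha => ?_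
    simp only [Function.comp_apply]
    rw [hford a (hmin a ha)]
    have e0 : (Polynomial.coeToPowerSeries.ringHom (R := ℤ)) (Polynomial.X ^ ∑ i, a i) =
        PowerSeries.X ^ ∑ i, a i := by
      rw [map_pow]
      simp
    rw [map_sub, map_one, map_mul, PowerSeries.map_C, e0, map_pow (PowerSeries.map _),
      PowerSeries.map_X]
  have hPhi : Phi (fun u => ∑ i, (A i + e * m j0 i) * u i) {u | Adm J u ∧ amin m u = τ} =
      Phi (ford A m e) {u | Adm J u ∧ amin m u = τ} := by
    refine Phi_congr _ _ _ fun u hu => hford u (mem_amin.1 ?_)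
    rw [hu.2]
    exact hj0
  set C := PowerSeries.mk fun M => cp A m e J τ M M with hC
  have hCmap : PowerSeries.map (Polynomial.coeToPowerSeries.ringHom (R := ℤ)) C =
      PowerSeries.C ((1 - PowerSeries.X) ^ (free A m J τ).card) *
        Phi (ford A m e) {u | Adm J u ∧ amin m u = τ} := by
    ext1 M
    rw [PowerSeries.coeff_map, hC, PowerSeries.coeff_mk, PowerSeries.coeff_C_mul]
    exact (h1 A m e J τ hr he M).symm
  set D := (l.filter fun a => 0 < ford A m e a).map fun a =>
        1 - PowerSeries.C (Polynomial.X ^ (∑ i, a i)) *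
          PowerSeries.X (R := Polynomial ℤ) ^ ford A m e a with hD
  have hmain : C * D.prod * PowerSeries.C E0 =
      PowerSeries.C ((1 - Polynomial.X) ^ (free A m J τ).card) *
        ((P : Polynomial (Polynomial ℤ)) : PowerSeries (Polynomial ℤ)) := by
    apply map_inj
    rw [mul_assoc, ← hsplit, map_mul, map_mul, ← hprod, hCmap, ← hP, hPhi, PowerSeries.map_C]
    have e1 : (Polynomial.coeToPowerSeries.ringHom (R := ℤ))
        ((1 - Polynomial.X) ^ (free A m J τ).card) =
        (1 - PowerSeries.X) ^ (free A m J τ).card := by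
      rw [map_pow, map_sub, map_one]
      simp
    rw [e1]
    ring
  have hcoeff : ∀ M, P.natDegree < M → PowerSeries.coeff M (C * D.prod) = 0 := by
    intro M hM
    have h3 := congrArg (PowerSeries.coeff M) hmain
    rw [PowerSeries.coeff_mul_C, PowerSeries.coeff_C_mul, Polynomial.coeff_coe,
      Polynomial.coeff_eq_zero_of_natDegree_lt hM, mul_zero] at h3
    exact (mul_eq_zero.1 h3).resolve_right hE0
  refine ⟨l.filter fun a => 0 < ford A m e a,
    PowerSeries.trunc (P.natDegree + 1) (C * D.prod), ?_, ?_⟩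
  · intro a ha
    rw [List.mem_filter] at ha
    exact ⟨hray a ha.1, by simpa using ha.2⟩
  · change C * D.prod = _
    ext1 M
    rw [Polynomial.coeff_coe, PowerSeries.coeff_trunc]
    split_ifs with h
    · rfl
    · exact hcoeff M (by omega)

end Pool.Agent.W29.MTRat
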