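import Pool.Agent.W757.RC.St4
import Pool.Agent.H790R3.RB.Main

set_option autoImplicit false

open Topology Filter Metric Set MeasureTheory
open scoped OnePoint

namespace Pool.Agent.W29.RQSEQ

open Pool.Agent.H790R3.RB

/-! ### Attraction to the marked point at infinity -/

theorem sink_k {d n s : ℕ} (S : Sys d n s) {x : Fin n → ℂ} (hx : x ∈ S.U) (k : Option (Fin s)) :
    Sink (sp (S.co x)) (S.per k) (pr (S.cht k x 0)) := by
  have hd := S.hd
  obtain ⟨-, hf, -, -, hc⟩ := SP d (S.co x) (by omega) (S.nd x hx)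
  refine ⟨S.hper k, ?_, TOP.Dk S k x, TOP.Dk_nhds S k x, ?_⟩
  · obtain ⟨z', h1, h2⟩ := TOP.iter_chart S hx k hf 1 0 (by rw [norm_zero]; exact S.hr₀)
    rw [norm_zero, mul_zero] at h1
    have h3 : z' = 0 := norm_le_zero_iff.1 h1
    rwa [mul_one, h3] at h2
  · intro V hV
    have hV' : (fun z : ℂ => pr (S.cht k x z)) ⁻¹' V ∈ 𝓝 (0 : ℂ) :=
      (TOP.cont_chart S k x hc).continuousAt.preimage_mem_nhds hV
    obtain ⟨δ, hδ, hδV⟩ := Metric.mem_nhds_iff.1 hV'
    have ht : Tendsto (fun j : ℕ => S.θ ^ j * S.r₀) atTop (𝓝 (0 * S.r₀)) :=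
      (tendsto_pow_atTop_nhds_zero_of_lt_one S.hθ0 S.hθ).mul_const _
    rw [zero_mul] at ht
    filter_upwards [ht.eventually (gt_mem_nhds hδ)] with j hj
    rintro _ ⟨z, hz, rfl⟩
    obtain ⟨z', h1, h2⟩ := TOP.iter_chart S hx k hf j z hz
    rw [h2]
    apply hδV
    rw [mem_ball, dist_zero_right]
    refine lt_of_le_of_lt h1 (lt_of_le_of_lt ?_ hj)
    exact mul_le_mul_of_nonneg_left hz.le (pow_nonneg S.hθ0 j)

theorem attd_out {d n s : ℕ} (S : Sys d n s) {x : Fin n → ℂ} (hx : x ∈ S.U) {z : ℂ}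
    (hz : 1 / S.r₀ < ‖z‖) : Attd (sp (S.co x)) (z : OnePoint ℂ) := by
  have hd := S.hd
  have hr := S.hr₀
  obtain ⟨-, hf, -, -, hc⟩ := SP d (S.co x) (by omega) (S.nd x hx)
  refine ⟨S.per none, pr (S.cht none x 0), sink_k S hx none, ?_⟩
  refine TOP.tend_chart S hx none hf hc _ ?_
  have hz0 : 0 < ‖z‖ := lt_trans (by positivity) hz
  have hne : z ≠ 0 := norm_pos_iff.1 hz0
  refine ⟨1 / z, ?_, ?_⟩
  · rw [norm_div, norm_one, div_lt_iff₀ hz0]
    rw [div_lt_iff₀ hr] at hz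
    linarith
  · rw [TOP.pr_none S x (one_div_ne_zero hne), one_div_one_div]

/-! ### Area distortion of a shear -/

theorem det_mul (a : ℂ) :
    ((ContinuousLinearMap.toSpanSingleton ℂ a).restrictScalars ℝ : ℂ →L[ℝ] ℂ).det = ‖a‖ ^ 2 := by
  rw [ContinuousLinearMap.det, ← LinearMap.det_toMatrix Complex.basisOneI, Matrix.det_fin_two]
  simp only [LinearMap.toMatrix_apply, Complex.coe_basisOneI, Complex.coe_basisOneI_repr]
  simp [Complex.sq_norm, Complex.normSq_apply]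

theorem area {η : ℂ} {R : ℝ} (hR : 0 < R) (hη : ‖η‖ * R ≤ 1 / 8) {E E' : Set ℂ}
    (hE' : ∀ ζ ∈ E', ‖ζ‖ ≤ R ∧ ζ / (1 + η * ζ) ∈ E) : volume E' ≤ 4 * volume E := by
  set t := toMeasurable (volume : Measure ℂ) E with ht
  set s := t ∩ closedBall (0 : ℂ) (2 * R) with hs
  have hsm : MeasurableSet s := (measurableSet_toMeasurable _ _).inter measurableSet_closedBall
  have hb : ∀ z ∈ closedBall (0 : ℂ) (2 * R), 3 / 4 ≤ ‖1 - η * z‖ := by
    intro z hz
    rw [mem_closedBall_zero_iff] at hz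
    have h1 : ‖η * z‖ ≤ 1 / 4 := by
      rw [norm_mul]
      nlinarith [norm_nonneg η]
    have h2 := norm_sub_norm_le (1 : ℂ) (η * z)
    rw [norm_one] at h2
    linarith
  have hb0 : ∀ z ∈ closedBall (0 : ℂ) (2 * R), 1 - η * z ≠ 0 := by
    intro z hz h0
    have := hb z hz
    rw [h0, norm_zero] at this
    linarith
  have hder : ∀ z ∈ s, HasFDerivWithinAt (fun z : ℂ => z / (1 - η * z))
      ((ContinuousLinearMap.toSpanSingleton ℂ (1 / (1 - η * z) ^ 2)).restrictScalars ℝ : ℂ →L[ℝ] ℂ)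
      s z := by
    intro z hz
    have h0 := hb0 z hz.2
    have h1 : HasDerivAt (fun z : ℂ => z / (1 - η * z)) (1 / (1 - η * z) ^ 2) z := by
      have h2 : HasDerivAt (fun z : ℂ => 1 - η * z) (-η) z := by
        have h3 := ((hasDerivAt_id z).const_mul η).const_sub 1
        simpa using h3
      have h4 : HasDerivAt (fun z : ℂ => z / (1 - η * z))
          ((1 * (1 - η * z) - z * -η) / (1 - η * z) ^ 2) z := (hasDerivAt_id z).fun_div h2 h0
      have e : 1 * (1 - η * z) - z * -η = 1 := by ring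
      rw [e] at h4
      exact h4
    exact (h1.hasFDerivAt.restrictScalars ℝ).hasFDerivWithinAt
  have h1 := addHaar_image_le_lintegral_abs_det_fderiv (volume : Measure ℂ) hsm hder
  have h2 : E' ⊆ (fun z : ℂ => z / (1 - η * z)) '' s := by
    intro ζ hζ
    obtain ⟨h3, h4⟩ := hE' ζ hζ
    have h5 : ‖η * ζ‖ ≤ 1 / 8 := by
      rw [norm_mul]
      nlinarith [norm_nonneg η]
    have h6 : 7 / 8 ≤ ‖1 + η * ζ‖ := by
      have h7 := norm_sub_norm_le (1 : ℂ) (-(η * ζ))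
      rw [norm_one, norm_neg, sub_neg_eq_add] at h7
      linarith
    have h8 : 1 + η * ζ ≠ 0 := by
      intro h0
      rw [h0, norm_zero] at h6
      linarith
    refine ⟨ζ / (1 + η * ζ), ⟨subset_toMeasurable _ _ h4, ?_⟩, ?_⟩
    · rw [mem_closedBall_zero_iff, norm_div, div_le_iff₀ (by linarith)]
      nlinarith
    · have h9 : 1 - η * (ζ / (1 + η * ζ)) = 1 / (1 + η * ζ) := by
        field_simp
        ring
      change ζ / (1 + η * ζ) / (1 - η * (ζ / (1 + η * ζ))) = ζ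
      rw [h9, div_div_eq_mul_div, div_one, div_mul_cancel₀ _ h8]
  refine (measure_mono h2).trans (h1.trans ?_)
  have h3 : ∫⁻ z in s, ENNReal.ofReal |((ContinuousLinearMap.toSpanSingleton ℂ
      (1 / (1 - η * z) ^ 2)).restrictScalars ℝ : ℂ →L[ℝ] ℂ).det| ≤ ∫⁻ _ in s, 4 := by
    refine setLIntegral_mono measurable_const fun z hz => ?_
    rw [det_mul, abs_of_nonneg (by positivity)]
    have h4 := hb z hz.2
    have h5 : ‖(1 : ℂ) / (1 - η * z) ^ 2‖ ^ 2 ≤ 4 := by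
      rw [norm_div, norm_one, norm_pow, div_pow, one_pow, div_le_iff₀ (by positivity)]
      have h6 : (9 : ℝ) / 16 ≤ ‖1 - η * z‖ ^ 2 := by nlinarith
      nlinarith
    calc ENNReal.ofReal (‖(1 : ℂ) / (1 - η * z) ^ 2‖ ^ 2) ≤ ENNReal.ofReal 4 :=
          ENNReal.ofReal_le_ofReal h5
      _ = 4 := by norm_num
  refine h3.trans ?_
  rw [setLIntegral_const]
  refine mul_le_mul_right ?_ 4
  calc volume s ≤ volume t := measure_mono inter_subset_left
    _ = volume E := measure_toMeasurable E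

/-! ### The shear conjugacy -/

theorem sp_smul {d : ℕ} {a : ℂ} (ha : a ≠ 0) (x : CV d) : sp (a • x) = sp x := by
  funext z
  unfold sp
  rw [HYP.hF_csmul, TOP.pr_smul ha]

theorem conj {d : ℕ} (hd : 1 ≤ d) {w c : CV d} (hw : ND w) (hc : ND c) (η : ℂ)
    (hconj : ∀ p : ℂ × ℂ, hF c (p.1, p.2 - η * p.1) =
      ((hF w p).1, (hF w p).2 - η * (hF w p).1)) :
    ∃ h : OnePoint ℂ ≃ₜ OnePoint ℂ, (∀ z, sp c (h z) = h (sp w z)) ∧
      ∀ z : ℂ, 1 - η * z ≠ 0 → h (z : OnePoint ℂ) = ((z / (1 - η * z) : ℂ) : OnePoint ℂ) := by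
  obtain ⟨h, hh, -⟩ := MOB SP 1 0 (-η) 1 (by norm_num)
  have hT : ∀ q : ℂ × ℂ, q ≠ 0 → h (pr q) = pr (q.1, q.2 - η * q.1) := by
    intro q hq
    rw [hh q hq]
    congr 1
    ext <;> simp <;> ring
  have hTne : ∀ q : ℂ × ℂ, q ≠ 0 → ((q.1, q.2 - η * q.1) : ℂ × ℂ) ≠ 0 := by
    intro q hq h0
    apply hq
    have h1 : q.1 = 0 := congrArg Prod.fst h0
    have h2 : q.2 - η * q.1 = 0 := congrArg Prod.snd h0
    rw [h1, mul_zero, sub_zero] at h2
    exact Prod.ext h1 h2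
  refine ⟨h, ?_, ?_⟩
  · intro z
    obtain ⟨-, hitv, -, hhcv, -⟩ := SP d w hd hw
    obtain ⟨-, hitc, -, -, -⟩ := SP d c hd hc
    obtain ⟨hz1, hz2⟩ := hhcv z
    have e1 := hitc _ (hTne _ hz2) 1
    have e2 := hitv _ hz2 1
    simp only [Function.iterate_one] at e1 e2
    rw [← hz1, e2, hT _ hz2, e1, hconj, hT _ (fun h0 => hz2 (hw _ h0))]
  · intro z hz
    have h1 : pr ((z, 1) : ℂ × ℂ) = (z : OnePoint ℂ) := by simp [pr]
    rw [← h1, hT _ (fun h => one_ne_zero (congrArg Prod.snd h))]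
    unfold pr
    rw [if_neg hz]

theorem task (hSEL : Pool.Agent.W757.RC.StSEL) (hGENX : Pool.Agent.W757.RC.StGENX) :
    Pool.Agent.W757.RC.StSEQ := by
  intro d x₀ p hd hnd hinf harea ε hε
  obtain ⟨hfc, hit, hcr, hhc, -⟩ := SP d x₀ (by omega) hnd
  obtain ⟨β, hG⟩ : ∃ β : Fin 0 → ℂ, INF.Good (sp x₀) 0 β := by
    refine ⟨Fin.elim0, ?_, ?_⟩
    · intro k
      cases k with
      | none => exact INF.sink_min hfc hinf
      | some k => exact k.elim0
    · intro k k' m _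
      exact Subsingleton.elim _ _
  have hch0 : ∀ k, ch (fun k (_ : Unit) => β k) k () 0 ≠ 0 := fun k => ch_ne_zero _ _ _ _
  have key : ∀ (k k' : Option (Fin 0)) (m : ℕ),
      cr ((hF x₀)^[m] (ch (fun k (_ : Unit) => β k) k () 0)) (ch (fun k (_ : Unit) => β k) k' () 0)
        = 0 ↔ (sp x₀)^[m] (INF.pt β k) = INF.pt β k' := by
    intro k k' m
    rw [← hcr _ _ (hnd.iter_ne m (hch0 k)) (hch0 k'), ← hit _ (hch0 k), INF.pr_ch, INF.pr_ch]
  obtain ⟨S, v, η, hper, -, hb, hco, hv, hvc, hηd, hη0, hid, hinj, hopen⟩ :=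
    t_FAM d 0 x₀ (fun k _ => β k) (fun k => Function.minimalPeriod (sp x₀) (INF.pt β k)) 1 hd hnd
      (fun k => (hG.1 k).1) one_pos
      (fun k => (key k k _).mpr (hG.1 k).2.1)
      (fun k => by
        have h := hG.1 k
        have h2 := MUL SP d x₀ (Function.minimalPeriod (sp x₀) (INF.pt β k)) 0 (fun k _ => β k) k
          hd hnd (by rw [INF.pr_ch]; exact h)
        exact h2)
      (fun k k' m hm => by
        have h1 := (key k k' m).mp hm
        have h2 := hG.2 k k' m h1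
        subst h2
        exact ⟨rfl, Function.IsPeriodicPt.minimalPeriod_dvd h1⟩)
  obtain ⟨hsep, -⟩ := t_HYP d 0 S v η (by rw [hv, hco]) hvc hηd hid hinj hopen
  have hH : Pool.Agent.W757.RC.Hyp S (fun _ : Fin 1 => η) := by
    refine ⟨fun _ => hηd, by omega, ?_, hGENX d S v η hid hopen⟩
    intro x₁ hx₁
    obtain ⟨ε', hε', h⟩ := hsep x₁ hx₁
    exact ⟨ε', hε', fun x hx hxx he hp => h x hx hxx (he 0) hp⟩
  have hxT : S.xT ∈ S.U := mem_ball_self S.hρ
  have hR : 0 < 1 / S.r₀ := by have := S.hr₀; positivity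
  have hsmall : ∀ δ : ℝ, 0 < δ → ∃ x ∈ S.U, ‖x - S.xT‖ < δ ∧
      volume {ζ : ℂ | ¬ Attd (sp (S.co x)) (ζ : OnePoint ℂ)} ≤ ENNReal.ofReal δ := by
    intro δ hδ
    have hηc : ContinuousAt η S.xT :=
      (hηd.differentiableAt (isOpen_ball.mem_nhds hxT)).continuousAt
    obtain ⟨δ₁, hδ₁, hη1⟩ := Metric.continuousAt_iff.1 hηc (1 / 8 / (1 / S.r₀)) (by positivity)
    obtain ⟨δ₂, hδ₂, hop⟩ := hopen S.xT hxT (min δ δ₁) (lt_min hδ hδ₁)
    obtain ⟨x', hx', hnd', hvol⟩ := harea (min δ₂ (δ / 4)) (lt_min hδ₂ (by positivity))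
    obtain ⟨x'', hxU, hxn, a, ha, hva⟩ := hop x' (by
      rw [hv]; exact hx'.trans_le (min_le_left _ _))
    refine ⟨x'', hxU, hxn.trans_le (min_le_left _ _), ?_⟩
    have hη2 : ‖η x''‖ * (1 / S.r₀) ≤ 1 / 8 := by
      have h1 := hη1 (x := x'') (by rw [dist_eq_norm]; exact hxn.trans_le (min_le_right _ _))
      rw [hη0, dist_zero_right, lt_div_iff₀ hR] at h1
      exact h1.le
    obtain ⟨hndv, hconj⟩ := hid x'' hxU
    obtain ⟨h, hsemi, hz⟩ := conj (by omega) hndv (S.nd x'' hxU) (η x'') hconj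
    have hspv : sp (v x'') = sp x' := by rw [hva, sp_smul ha]
    refine (area hR hη2 (E := {z : ℂ | ¬ Attd (sp x') (z : OnePoint ℂ)}) ?_).trans ?_
    · intro ζ hζ
      have hζR : ‖ζ‖ ≤ 1 / S.r₀ := by
        by_contra hcon
        push Not at hcon
        exact hζ (attd_out S hxU hcon)
      refine ⟨hζR, fun hA => hζ ?_⟩
      have h5 : ‖η x'' * ζ‖ ≤ 1 / 8 := by
        rw [norm_mul]
        exact (mul_le_mul_of_nonneg_left hζR (norm_nonneg _)).trans hη2
      have h8 : 1 + η x'' * ζ ≠ 0 := by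
        intro h0
        have h7 := norm_sub_norm_le (1 : ℂ) (-(η x'' * ζ))
        rw [norm_one, norm_neg, sub_neg_eq_add, h0, norm_zero] at h7
        linarith
      have h9 : 1 - η x'' * (ζ / (1 + η x'' * ζ)) = 1 / (1 + η x'' * ζ) := by
        field_simp
        ring
      rw [← hspv] at hA
      have h10 := ALL.attd h hsemi hA
      rw [hz _ (by rw [h9]; exact one_div_ne_zero h8), h9] at h10
      have h11 : ζ / (1 + η x'' * ζ) / (1 / (1 + η x'' * ζ)) = ζ := by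
        rw [div_div_eq_mul_div, div_one, div_mul_cancel₀ _ h8]
      rwa [h11] at h10
    · calc 4 * volume {z : ℂ | ¬ Attd (sp x') (z : OnePoint ℂ)}
          ≤ 4 * ENNReal.ofReal (δ / 4) := by
            refine mul_le_mul_right ?_ 4
            exact hvol.trans (ENNReal.ofReal_le_ofReal (min_le_right _ _))
        _ = ENNReal.ofReal δ := by
            rw [show (4 : ENNReal) = ENNReal.ofReal 4 by norm_num, ← ENNReal.ofReal_mul (by norm_num)]
            congr 1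
            ring
  obtain ⟨δ, hδ, hvδ⟩ := Metric.continuousAt_iff.mp (hvc.continuousAt (x := S.xT)) ε hε
  obtain ⟨x, hxU, hxT', hTop⟩ := hSEL d _ 1 S (fun _ => η) hH hsmall δ hδ
  obtain ⟨hndv, hconj⟩ := hid x hxU
  refine ⟨v x, ?_, hndv, ?_⟩
  · have := hvδ (x := x) (by rw [dist_eq_norm]; exact hxT')
    rwa [hv, dist_eq_norm] at this
  · obtain ⟨h, hsemi, -⟩ := conj (by omega) hndv (S.nd x hxU) (η x) hconj
    exact INF.hyp_conj h hsemi hTop

end Pool.Agent.W29.RQSEQ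

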